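import Pool.Agent.N86.SQ.Rate
import Pool.Agent.TH671.DU.Red

/-!
# Extension of the ground field
-/

set_option autoImplicit false
set_option linter.unusedSectionVars false

namespace Pool.Agent.N86.SQ

open scoped TensorProduct PowerSeries Topology
open Pool.Agent.H826R3.SM Pool.Agent.TH671.DU

/-- homomorphisms out of a base change -/
theorem exists_lift {R S 𝒜 M : Type} [CommRing R] [CommRing S] [Algebra R S] [CommRing 𝒜]
    [Algebra R 𝒜] [CommRing M] [Algebra S M] (u : 𝒜 →+* M)
    (hu : ∀ r, u (algebraMap R 𝒜 r) = algebraMap S M (algebraMap R S r)) :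
    ∃ χ : S ⊗[R] 𝒜 →ₐ[S] M, ∀ x, χ (1 ⊗ₜ x) = u x := by
  letI : Algebra R M := ((algebraMap S M).comp (algebraMap R S)).toAlgebra
  haveI : IsScalarTower R S M := IsScalarTower.of_algebraMap_eq fun _ => rfl
  let u' : 𝒜 →ₐ[R] M := { u with commutes' := hu }
  refine ⟨Algebra.TensorProduct.lift (Algebra.ofId S M) u' fun _ _ => Commute.all _ _, fun x => ?_⟩
  rw [Algebra.TensorProduct.lift_tmul, map_one, one_mul]
  rfl

/-- homomorphisms out of a power, over an extension field -/
theorem exists_powLift {k K B P : Type} [Field k] [Field K] [Algebra k K] [CommRing B] [Algebra k B]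
    [CommRing P] [Algebra K P] {n : ℕ} (f : Fin n → (B →+* P))
    (hf : ∀ i c, f i (algebraMap k B c) = algebraMap K P (algebraMap k K c)) :
    ∃ F : Pow k B n →+* P, (∀ i x, F (sg k B i x) = f i x) ∧
      ∀ c, F (algebraMap k _ c) = algebraMap K P (algebraMap k K c) := by
  letI : Algebra k P := ((algebraMap K P).comp (algebraMap k K)).toAlgebra
  let f' : Fin n → (B →ₐ[k] P) := fun i => { f i with commutes' := hf i }
  exact ⟨(powLift f').toRingHom, fun i x => powLift_single f' i x, fun c => (powLift f').commutes c⟩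

theorem exists_emb {k K M : Type} [Field k] [Field K] (f : k →+* K) [Field M] [IsAlgClosed M]
    (g : K⟦X⟧ →+* M) (hg : Function.Injective g) :
    ∃ j : LL k →+* M, ∀ c : k⟦X⟧, j (algebraMap k⟦X⟧ (LL k) c) = g (PowerSeries.map f c) := by
  have halg1 : Algebra.IsAlgebraic k⟦X⟧ (LaurentSeries k) :=
    IsLocalization.isAlgebraic _ (nonZeroDivisors k⟦X⟧)
  have halg : Algebra.IsAlgebraic k⟦X⟧ (LL k) :=
    Algebra.IsAlgebraic.trans k⟦X⟧ (LaurentSeries k) (LL k)
  have hinj : Function.Injective (algebraMap k⟦X⟧ (LL k)) := by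
    rw [IsScalarTower.algebraMap_eq k⟦X⟧ (LaurentSeries k) (LL k)]
    exact (algebraMap (LaurentSeries k) (LL k)).injective.comp
      (IsFractionRing.injective k⟦X⟧ (LaurentSeries k))
  letI : Algebra k⟦X⟧ M := (g.comp (PowerSeries.map f)).toAlgebra
  have hinjf : Function.Injective (PowerSeries.map f) := by
    intro a b hab
    ext n
    have := congrArg (PowerSeries.coeff n) hab
    rw [PowerSeries.coeff_map, PowerSeries.coeff_map] at this
    exact f.injective this
  have h2 : Function.Injective (algebraMap k⟦X⟧ M) := hg.comp hinjf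
  haveI : FaithfulSMul k⟦X⟧ (LL k) := (faithfulSMul_iff_algebraMap_injective _ _).mpr hinj
  haveI : FaithfulSMul k⟦X⟧ M := (faithfulSMul_iff_algebraMap_injective _ _).mpr h2
  haveI : Module.IsTorsionFree k⟦X⟧ (LL k) := inferInstance
  haveI : Module.IsTorsionFree k⟦X⟧ M := inferInstance
  let j : LL k →ₐ[k⟦X⟧] M := IsAlgClosed.lift
  exact ⟨j.toRingHom, fun c => j.commutes c⟩

theorem sep_baseChange {L M ι X' : Type} [Field L] [Field M] [Fintype ι] (j : L →+* M)
    (v : X' → ι → L) (h : ∀ z : ι → L, (∀ χ, ∑ i, z i * v χ i = 0) → z = 0) (y : ι → M)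
    (hy : ∀ χ, ∑ i, y i * j (v χ i) = 0) : y = 0 := by
  classical
  have hspan : Submodule.span L (Set.range v) = ⊤ := by
    by_contra hne
    obtain ⟨φ, hφ, hφ0⟩ := Submodule.exists_le_ker_of_lt_top _ (lt_top_iff_ne_top.2 hne)
    apply hφ
    have hφs : ∀ w : ι → L, φ w = ∑ i, φ (Pi.single i 1) * w i := by
      intro w
      conv_lhs => rw [pi_eq_sum_univ' w, map_sum]
      refine Finset.sum_congr rfl fun i _ => ?_
      rw [map_smul, smul_eq_mul, mul_comm]
    have h1 : (fun i => φ (Pi.single i 1)) = 0 := by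
      apply h
      intro χ
      rw [← hφs]
      exact hφ0 (Submodule.subset_span ⟨χ, rfl⟩)
    apply LinearMap.ext
    intro w
    rw [hφs, LinearMap.zero_apply]
    refine Finset.sum_eq_zero fun i _ => ?_
    rw [show φ (Pi.single i 1) = 0 from congrFun h1 i, zero_mul]
  have key : ∀ w : ι → L, ∑ i, y i * j (w i) = 0 := by
    intro w
    have hw : w ∈ Submodule.span L (Set.range v) := by rw [hspan]; trivial
    induction hw using Submodule.span_induction with
    | mem x hx =>
      obtain ⟨χ, rfl⟩ := hx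
      exact hy χ
    | zero => simp
    | add a b _ _ ha hb =>
      have : ∑ i, y i * j ((a + b) i) = ∑ i, y i * j (a i) + ∑ i, y i * j (b i) := by
        rw [← Finset.sum_add_distrib]
        refine Finset.sum_congr rfl fun i _ => ?_
        rw [Pi.add_apply, map_add, mul_add]
      rw [this, ha, hb, add_zero]
    | smul r a _ ha =>
      have : ∑ i, y i * j ((r • a) i) = j r * ∑ i, y i * j (a i) := by
        rw [Finset.mul_sum]
        refine Finset.sum_congr rfl fun i _ => ?_
        rw [Pi.smul_apply, smul_eq_mul, map_mul]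
        ring
      rw [this, ha, mul_zero]
  funext i₀
  have h1 := key (Pi.single i₀ 1)
  rw [Finset.sum_eq_single i₀] at h1
  · rw [Pi.single_eq_same, map_one, mul_one] at h1
    exact h1
  · intro i _ hi
    rw [Pi.single_eq_of_ne hi, map_zero, mul_zero]
  · intro h
    exact absurd (Finset.mem_univ _) h

/-- **Families after an extension of the ground field.** -/
theorem fam_baseChange {k K B : Type} [Field k] [Field K] [Algebra k K] [CommRing B] [Algebra k B]
    {D : ℕ} (h : Fam k B D) : Fam K (K ⊗[k] B) D := by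
  obtain ⟨𝒜, cA, aA, hfin, hfree, hred, hrk, π, hπs, hπC⟩ := h
  have hmap : ∀ c : k⟦X⟧, algebraMap k⟦X⟧ K⟦X⟧ c = PowerSeries.map (algebraMap k K) c :=
    fun c => rfl
  refine ⟨K⟦X⟧ ⊗[k⟦X⟧] 𝒜, inferInstance, inferInstance, inferInstance, inferInstance, ?_, ?_, ?_⟩
  · let b := Module.finBasis k⟦X⟧ 𝒜
    rw [red_iff_sep (Module.Basis.baseChange K⟦X⟧ b)]
    intro y hy
    have hinjK : Function.Injective (algebraMap K⟦X⟧ (LL K)) := by
      rw [IsScalarTower.algebraMap_eq K⟦X⟧ (LaurentSeries K) (LL K)]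
      exact (algebraMap (LaurentSeries K) (LL K)).injective.comp
        (IsFractionRing.injective K⟦X⟧ (LaurentSeries K))
    obtain ⟨j, hj⟩ := exists_emb (algebraMap k K) (algebraMap K⟦X⟧ (LL K)) hinjK
    refine sep_baseChange j (fun (χ : 𝒜 →ₐ[k⟦X⟧] LL k) i => χ (b i)) ((red_iff_sep b).1 hred) y
      fun χ => ?_
    obtain ⟨χ', hχ'⟩ := exists_lift (R := k⟦X⟧) (S := K⟦X⟧) (j.comp χ.toRingHom) (fun r => by
      change j (χ (algebraMap k⟦X⟧ 𝒜 r)) = _
      rw [χ.commutes, hj, hmap])
    rw [← hy χ']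
    refine Finset.sum_congr rfl fun i _ => ?_
    rw [Module.Basis.baseChange_apply, hχ']
    rfl
  · rw [Module.finrank_baseChange]
    exact hrk
  · letI : Algebra K⟦X⟧ (K ⊗[k] B) :=
      ((algebraMap K (K ⊗[k] B)).comp (PowerSeries.constantCoeff (R := K))).toAlgebra
    have hAl : ∀ c : K⟦X⟧, algebraMap K⟦X⟧ (K ⊗[k] B) c =
      algebraMap K (K ⊗[k] B) (PowerSeries.constantCoeff c) := fun c => rfl
    obtain ⟨χ', hχ'⟩ := exists_lift (R := k⟦X⟧) (S := K⟦X⟧) (𝒜 := 𝒜) (M := K ⊗[k] B)
      ((Algebra.TensorProduct.includeRight (R := k) (A := K) (B := B)).toRingHom.comp π) (fun r => by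
        change (1 : K) ⊗ₜ[k] π (algebraMap k⟦X⟧ 𝒜 r) = _
        rw [hπC, hAl, hmap]
        have h1 : PowerSeries.constantCoeff (PowerSeries.map (algebraMap k K) r) =
            algebraMap k K (PowerSeries.constantCoeff r) := by
          rw [← PowerSeries.coeff_zero_eq_constantCoeff_apply, PowerSeries.coeff_map,
            PowerSeries.coeff_zero_eq_constantCoeff_apply]
        rw [h1, Algebra.algebraMap_eq_smul_one, ← TensorProduct.smul_tmul,
          Algebra.TensorProduct.algebraMap_apply, Algebra.algebraMap_self, RingHom.id_apply,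
          Algebra.algebraMap_eq_smul_one])
    refine ⟨χ'.toRingHom, ?_, fun c => ?_⟩
    · intro y
      induction y using TensorProduct.induction_on with
      | zero => exact ⟨0, map_zero _⟩
      | tmul c x =>
        obtain ⟨z, rfl⟩ := hπs x
        refine ⟨(PowerSeries.C c : K⟦X⟧) ⊗ₜ[k⟦X⟧] z, ?_⟩
        change χ' ((PowerSeries.C c : K⟦X⟧) ⊗ₜ[k⟦X⟧] z) = _
        have h1 : ((PowerSeries.C c : K⟦X⟧) ⊗ₜ[k⟦X⟧] z : K⟦X⟧ ⊗[k⟦X⟧] 𝒜) =
            algebraMap K⟦X⟧ _ (PowerSeries.C c) * (1 ⊗ₜ[k⟦X⟧] z) := by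
          rw [Algebra.TensorProduct.algebraMap_apply, Algebra.algebraMap_self, RingHom.id_apply,
            Algebra.TensorProduct.tmul_mul_tmul, mul_one, one_mul]
        rw [h1, map_mul, hχ', AlgHom.commutes, hAl, PowerSeries.constantCoeff_C]
        change algebraMap K (K ⊗[k] B) c * ((1 : K) ⊗ₜ[k] π z) = _
        rw [Algebra.TensorProduct.algebraMap_apply, Algebra.algebraMap_self, RingHom.id_apply,
            Algebra.TensorProduct.tmul_mul_tmul, mul_one, one_mul]
      | add x y hx hy =>
        obtain ⟨a, ha⟩ := hx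
        obtain ⟨b, hb⟩ := hy
        exact ⟨a + b, by rw [map_add, ha, hb]⟩
    · change χ' (algebraMap K⟦X⟧ _ c) = _
      rw [AlgHom.commutes, hAl]

/-- the powers of a base change -/
theorem pow_baseChange {k K B : Type} [Field k] [Field K] [Algebra k K] [CommRing B] [Algebra k B]
    (n : ℕ) : ∃ f : K ⊗[k] Pow k B n →ₐ[K] Pow K (K ⊗[k] B) n, Function.Surjective f := by
  obtain ⟨F, hF1, hF2⟩ := exists_powLift (k := k) (K := K) (B := B) (P := Pow K (K ⊗[k] B) n)
    (n := n) (fun i => (sg K (K ⊗[k] B) i).toRingHom.comp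
      (Algebra.TensorProduct.includeRight (R := k) (A := K) (B := B)).toRingHom) (fun i c => by
        change sg K (K ⊗[k] B) i ((1 : K) ⊗ₜ[k] algebraMap k B c) = _
        have h1 : ((1 : K) ⊗ₜ[k] algebraMap k B c : K ⊗[k] B) =
            algebraMap K (K ⊗[k] B) (algebraMap k K c) := by
          rw [Algebra.TensorProduct.algebraMap_apply, Algebra.algebraMap_self, RingHom.id_apply,
            Algebra.algebraMap_eq_smul_one, ← TensorProduct.smul_tmul,
            Algebra.algebraMap_eq_smul_one]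
        rw [h1, AlgHom.commutes])
  obtain ⟨χ, hχ⟩ := exists_lift (R := k) (S := K) F hF2
  refine ⟨χ, ?_⟩
  rw [← AlgHom.range_eq_top]
  refine pow_eq_top _ fun i x => ?_
  induction x using TensorProduct.induction_on with
  | zero => rw [map_zero]; exact Subalgebra.zero_mem _
  | tmul c x =>
    have h1 : (c ⊗ₜ[k] x : K ⊗[k] B) = c • ((1 : K) ⊗ₜ[k] x) := by
      rw [TensorProduct.smul_tmul', smul_eq_mul, mul_one]
    rw [h1, map_smul]
    refine Subalgebra.smul_mem _ ?_ c
    rw [AlgHom.mem_range]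
    refine ⟨1 ⊗ₜ sg k B i x, ?_⟩
    rw [hχ, hF1]
    rfl
  | add x y hx hy => rw [map_add]; exact Subalgebra.add_mem _ hx hy

theorem nontrivial_baseChange (k K B : Type) [Field k] [Field K] [Algebra k K] [CommRing B]
    [Algebra k B] [Module.Finite k B] [Nontrivial B] : Nontrivial (K ⊗[k] B) :=
  Module.nontrivial_of_finrank_pos (R := K) (by
    rw [Module.finrank_baseChange]
    exact Module.finrank_pos)

/-- **The growth rate after an extension of the ground field.** -/
theorem rate_baseChange_le (k K B : Type) [Field k] [IsAlgClosed k] [Field K] [IsAlgClosed K]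
    [Algebra k K] [CommRing B] [Algebra k B] [Module.Finite k B] [Nontrivial B] :
    rate K (K ⊗[k] B) ≤ rate k B := by
  have := nontrivial_baseChange k K B
  rw [rate_eq (K ⊗[k] B), rate_eq B]
  refine le_ciInf fun n => ?_
  refine (irate_le (fun n => mdeg K (Pow K (K ⊗[k] B) n)) n).trans ?_
  refine Real.rpow_le_rpow (Nat.cast_nonneg _) ?_ (by positivity)
  obtain ⟨D, hD⟩ := exists_fam (k := k) (Pow k B (n + 1))
  obtain ⟨f, hf⟩ := pow_baseChange (k := k) (K := K) (B := B) (n + 1)
  exact_mod_cast TH671.DU.mdeg_le ((fam_baseChange (K := K) (mdeg_spec hD)).of_surjective f hf)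

end Pool.Agent.N86.SQ
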