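import Pool.Agent.N86.SQ.Rate

/-!
# Families of algebras and polynomial dependence on the structure constants
-/

set_option autoImplicit false
set_option linter.unusedSectionVars false

namespace Pool.Agent.N86.SQ

open scoped TensorProduct Topology
open Pool.Agent.H826R3.SM Pool.Agent.TH671.DU
open MvPolynomial

variable {k : Type} [Field k]

section test

variable {ι : Type} [Fintype ι]

/-- polynomials with exponents at most `L` -/
noncomputable def box (k ι : Type) [Field k] [Fintype ι] (L : ℕ) :
    Submodule k (MvPolynomial ι k) :=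
  Submodule.span k (Set.range fun s : ι → Fin (L + 1) =>
    monomial (Finsupp.equivFunOnFinite.symm fun i => (s i : ℕ)) (1 : k))

theorem finrank_box_le (L : ℕ) :
    Module.finrank k (box k ι L) ≤ (L + 1) ^ Fintype.card ι := by
  classical
  have h1 := finrank_range_le_card (R := k) fun s : ι → Fin (L + 1) =>
    monomial (Finsupp.equivFunOnFinite.symm fun i => (s i : ℕ)) (1 : k)
  rw [Fintype.card_fun, Fintype.card_fin] at h1
  exact h1

instance finite_box (L : ℕ) : Module.Finite k (box k ι L) := by
  unfold box
  exact FiniteDimensional.span_of_finite k (Set.finite_range _)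

theorem mem_box {L : ℕ} {Q : MvPolynomial ι k} (hQ : Q.totalDegree ≤ L) : Q ∈ box k ι L := by
  rw [Q.as_sum]
  refine Submodule.sum_mem _ fun s hs => ?_
  have h1 : monomial s (coeff s Q) = coeff s Q • monomial s (1 : k) := by
    rw [smul_monomial, smul_eq_mul, mul_one]
  rw [h1]
  refine Submodule.smul_mem _ _ (Submodule.subset_span ?_)
  have h2 : ∀ i, s i < L + 1 := by
    intro i
    have h3 : s i ≤ s.degree := Finsupp.le_degree i s
    have h4 : s.degree ≤ Q.totalDegree := by
      have := le_totalDegree hs
      exact this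
    omega
  refine ⟨fun i => ⟨s i, h2 i⟩, ?_⟩
  change monomial (Finsupp.equivFunOnFinite.symm fun i => s i) (1 : k) = _
  have h3 : (Finsupp.equivFunOnFinite.symm fun i => s i) = s := by
    ext i
    rfl
  rw [h3]

/-- finitely many test points for the polynomials of bounded degree -/
theorem exists_finite_test {Y : Type} (p : Y → ι → k) (p₀ : ι → k)
    (hcl : ∀ Q : MvPolynomial ι k, (∀ y, eval (p y) Q = 0) → eval p₀ Q = 0) (L : ℕ) :
    ∃ (K : ℕ) (z : Fin K → Y), K ≤ (L + 1) ^ Fintype.card ι ∧
      ∀ Q : MvPolynomial ι k, Q.totalDegree ≤ L → (∀ l, eval (p (z l)) Q = 0) →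
        eval p₀ Q = 0 := by
  classical
  let V := box k ι L
  let ev : (ι → k) → (V →ₗ[k] k) := fun x =>
    (MvPolynomial.aeval x : MvPolynomial ι k →ₐ[k] k).toLinearMap ∘ₗ V.subtype
  have hev : ∀ x (Q : V), ev x Q = eval x (Q : MvPolynomial ι k) := by
    intro x Q
    change aeval x (Q : MvPolynomial ι k) = _
    rw [MvPolynomial.aeval_eq_eval]
  have h1 : ev p₀ ∈ Submodule.span k (Set.range fun y => ev (p y)) := by
    refine FiniteDimensional.mem_span_of_iInf_ker_le_ker fun Q hQ => ?_
    rw [LinearMap.mem_ker, hev]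
    refine hcl _ fun y => ?_
    rw [← hev]
    exact (Submodule.mem_iInf _).1 hQ y
  obtain ⟨b, hb1, hb2, hb3⟩ := exists_linearIndependent k (Set.range fun y => ev (p y))
  have hbfin : Finite b := hb3.finite
  have := Fintype.ofFinite b
  have hcard : Fintype.card b ≤ (L + 1) ^ Fintype.card ι := by
    have h2 := hb3.fintype_card_le_finrank
    rw [Subspace.dual_finrank_eq] at h2
    exact h2.trans (finrank_box_le L)
  choose zz hzz using fun f : b => hb1 f.2
  let E := Fintype.equivFin b
  refine ⟨Fintype.card b, fun l => zz (E.symm l), hcard, fun Q hQ hz => ?_⟩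
  let Q' : V := ⟨Q, mem_box hQ⟩
  rw [← hb2] at h1
  have h3 : ∀ f ∈ Submodule.span k b, f Q' = 0 := by
    intro f hf
    induction hf using Submodule.span_induction with
    | mem f hf =>
      have h4 := hz (E ⟨f, hf⟩)
      change eval (p (zz (E.symm (E ⟨f, hf⟩)))) Q = 0 at h4
      rw [E.symm_apply_apply] at h4
      have h5 : ev (p (zz ⟨f, hf⟩)) = f := hzz ⟨f, hf⟩
      rw [← h5, hev]
      exact h4
    | zero => rfl
    | add f g _ _ hf hg => rw [LinearMap.add_apply, hf, hg, add_zero]
    | smul r f _ hf => rw [LinearMap.smul_apply, hf, smul_zero]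
  have h6 := h3 _ h1
  rwa [hev] at h6

end test

/-- indices of the parameters of an algebra of dimension `d`: structure constants and coordinates
of the unit -/
abbrev PIdx (d : ℕ) : Type := (Fin d × Fin d × Fin d) ⊕ Fin d

/-- the parameters of an algebra with a basis -/
noncomputable def par {E : Type} [CommRing E] [Algebra k E] {d : ℕ}
    (c : Module.Basis (Fin d) k E) : PIdx d → k :=
  Sum.elim (fun z => c.repr (c z.1 * c z.2.1) z.2.2) (fun i => c.repr 1 i)

section poly

variable {Y : Type} {E : Y → Type} [∀ y, CommRing (E y)] [∀ y, Algebra k (E y)] {d : ℕ}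
  (c : ∀ y, Module.Basis (Fin d) k (E y)) (N : ℕ)

/-- the coordinates of the elements `x y` of the `N`-th powers of the algebras `E y` are
polynomials of degree at most `L` in the parameters -/
def IsPoly (L : ℕ) (x : ∀ y, Pow k (E y) N) : Prop :=
  ∀ J : Fin N → Fin d, ∃ Q : MvPolynomial (PIdx d) k, Q.totalDegree ≤ L ∧
    ∀ y, (Basis.piTensorProduct (fun _ : Fin N => c y)).repr (x y) J = eval (par (c y)) Q

variable {c N}

theorem IsPoly.mono {L L' : ℕ} {x : ∀ y, Pow k (E y) N} (h : IsPoly c N L x) (hL : L ≤ L') :
    IsPoly c N L' x := fun J => by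
  obtain ⟨Q, hQ, hQ'⟩ := h J
  exact ⟨Q, hQ.trans hL, hQ'⟩

theorem isPoly_zero (L : ℕ) : IsPoly c N L (fun _ => 0) := fun J =>
  ⟨0, by simp, fun y => by simp⟩

theorem IsPoly.add {L : ℕ} {x x' : ∀ y, Pow k (E y) N} (h : IsPoly c N L x)
    (h' : IsPoly c N L x') : IsPoly c N L (fun y => x y + x' y) := fun J => by
  obtain ⟨Q, hQ, hQ1⟩ := h J
  obtain ⟨R, hR, hR1⟩ := h' J
  refine ⟨Q + R, (totalDegree_add _ _).trans (max_le hQ hR), fun y => ?_⟩
  rw [map_add, Finsupp.add_apply, hQ1, hR1, map_add]

theorem IsPoly.smul {L : ℕ} {x : ∀ y, Pow k (E y) N} (h : IsPoly c N L x) (r : k) :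
    IsPoly c N L (fun y => r • x y) := fun J => by
  obtain ⟨Q, hQ, hQ1⟩ := h J
  refine ⟨r • Q, (totalDegree_smul_le r Q).trans hQ, fun y => ?_⟩
  rw [map_smul, Finsupp.smul_apply, hQ1, smul_eval, smul_eq_mul]

theorem isPoly_one : IsPoly c N N (fun _ => 1) := fun J => by
  refine ⟨∏ i, X (Sum.inr (J i)), ?_, fun y => ?_⟩
  · refine (totalDegree_finset_prod _ _).trans ?_
    refine (Finset.sum_le_card_nsmul _ _ 1 fun i _ => (totalDegree_X _).le).trans ?_
    simp
  · change (Basis.piTensorProduct (fun _ : Fin N => c y)).repr 1 J = _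
    rw [PiTensorProduct.one_def, Basis.piTensorProduct_repr_tprod_apply, map_prod]
    refine Finset.prod_congr rfl fun i _ => ?_
    rw [eval_X]
    rfl

/-- an element with constant coordinates -/
noncomputable def celt (α : Fin d → k) (y : Y) : E y := ∑ i, α i • c y i

theorem IsPoly.mul_single {L : ℕ} {x : ∀ y, Pow k (E y) N} (h : IsPoly c N L x) (α : Fin d → k)
    (i₀ : Fin N) : IsPoly c N (L + 1) (fun y => sg k (E y) i₀ (celt (c := c) α y) * x y) := by
  classical
  intro J
  choose Q hQ hQ1 using h
  -- the coordinates of the images of the basis vectors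
  let q : (Fin N → Fin d) → Fin N → MvPolynomial (PIdx d) k := fun J' i =>
    if i = i₀ then ∑ l, C (α l) * X (Sum.inl (l, J' i, J i)) else
      (if J' i = J i then 1 else 0)
  refine ⟨∑ J', Q J' * ∏ i, q J' i, ?_, fun y => ?_⟩
  · refine totalDegree_finsetSum_le fun J' _ => ?_
    refine (totalDegree_mul _ _).trans (Nat.add_le_add (hQ J') ?_)
    refine (totalDegree_finset_prod _ _).trans ?_
    have h1 : ∀ i ∈ (Finset.univ : Finset (Fin N)), (q J' i).totalDegree ≤
        if i = i₀ then 1 else 0 := by
      intro i _
      by_cases hi : i = i₀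
      · rw [if_pos hi]
        change (if i = i₀ then _ else _ : MvPolynomial (PIdx d) k).totalDegree ≤ 1
        rw [if_pos hi]
        refine totalDegree_finsetSum_le fun l _ => ?_
        refine (totalDegree_mul _ _).trans ?_
        rw [totalDegree_C, zero_add]
        exact (totalDegree_X _).le
      · rw [if_neg hi]
        change (if i = i₀ then _ else _ : MvPolynomial (PIdx d) k).totalDegree ≤ 0
        rw [if_neg hi]
        split_ifs
        · rw [totalDegree_one]
        · rw [totalDegree_zero]
    refine (Finset.sum_le_sum h1).trans ?_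
    rw [Finset.sum_ite_eq' Finset.univ i₀, if_pos (Finset.mem_univ _)]
  · let b := Basis.piTensorProduct (fun _ : Fin N => c y)
    change b.repr (sg k (E y) i₀ (celt (c := c) α y) * x y) J = _
    have h1 : x y = ∑ J', b.repr (x y) J' • b J' := (b.sum_repr (x y)).symm
    rw [h1, Finset.mul_sum, map_sum, Finsupp.finset_sum_apply, map_sum]
    refine Finset.sum_congr rfl fun J' _ => ?_
    rw [mul_smul_comm, map_smul, Finsupp.smul_apply, smul_eq_mul, map_mul (eval (par (c y)))]
    have h2 : b.repr (x y) J' = eval (par (c y)) (Q J') := hQ1 J' y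
    rw [h2]
    congr 1
    have h3 : sg k (E y) i₀ (celt (c := c) α y) * b J' =
        PiTensorProduct.tprod k fun i => (if i = i₀ then celt (c := c) α y else 1) *
          c y (J' i) := by
      have h4 : sg k (E y) i₀ (celt (c := c) α y) = PiTensorProduct.tprod k
          fun i => if i = i₀ then celt (c := c) α y else 1 := by
        change PiTensorProduct.tprod k (MonoidHom.mulSingle (fun _ : Fin N => E y) i₀
          (celt (c := c) α y)) = _
        congr 1
        funext i
        rw [MonoidHom.mulSingle_apply]
        by_cases hi : i = i₀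
        · subst hi
          rw [Pi.mulSingle_eq_same, if_pos rfl]
        · rw [Pi.mulSingle_eq_of_ne hi, if_neg hi]
      rw [h4, Basis.piTensorProduct_apply, PiTensorProduct.tprod_mul_tprod]
      rfl
    rw [h3, Basis.piTensorProduct_repr_tprod_apply, map_prod]
    refine Finset.prod_congr rfl fun i _ => ?_
    change _ = eval (par (c y)) (if i = i₀ then _ else _)
    by_cases hi : i = i₀
    · rw [if_pos hi, if_pos hi]
      unfold celt
      rw [Finset.sum_mul, map_sum, Finsupp.finset_sum_apply, map_sum]
      refine Finset.sum_congr rfl fun l _ => ?_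
      rw [smul_mul_assoc, map_smul, Finsupp.smul_apply, smul_eq_mul,
        map_mul (eval (par (c y))), eval_C, eval_X]
      rfl
    · rw [if_neg hi, if_neg hi, one_mul, Module.Basis.repr_self, Finsupp.single_apply]
      split_ifs
      · rw [map_one]
      · rw [map_zero]

theorem isPoly_monomial {σ : Type} (α : σ → Fin d → k) (e : ℕ) : ∀ s : Fin N × σ →₀ ℕ,
    s.degree = e → IsPoly c N (N + e) (fun y =>
      aeval (fun v : Fin N × σ => sg k (E y) v.1 (celt (c := c) (α v.2) y))
        (monomial s (1 : k))) := by
  classical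
  induction e with
  | zero =>
    intro s hs
    rw [Finsupp.degree_eq_zero_iff] at hs
    subst hs
    have h1 : (monomial (0 : Fin N × σ →₀ ℕ) (1 : k)) = 1 := rfl
    simp only [h1, map_one]
    exact isPoly_one
  | succ e ih =>
    intro s hs
    have hs0 : s ≠ 0 := by
      rintro rfl
      rw [map_zero] at hs
      omega
    obtain ⟨v, hv⟩ := Finsupp.ne_iff.1 hs0
    have hv1 : Finsupp.single v 1 ≤ s := by
      rw [Finsupp.single_le_iff]
      rw [Finsupp.zero_apply] at hv
      omega
    have hs' : s = Finsupp.single v 1 + (s - Finsupp.single v 1) :=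
      (add_tsub_cancel_of_le hv1).symm
    have hdeg : (s - Finsupp.single v 1).degree = e := by
      have h2 := congrArg Finsupp.degree hs'
      rw [map_add, Finsupp.degree_single] at h2
      omega
    have h3 := (ih _ hdeg).mul_single (α v.2) v.1
    have h4 : ∀ y, aeval (fun v : Fin N × σ => sg k (E y) v.1 (celt (c := c) (α v.2) y))
        (monomial s (1 : k)) = sg k (E y) v.1 (celt (c := c) (α v.2) y) *
          aeval (fun v : Fin N × σ => sg k (E y) v.1 (celt (c := c) (α v.2) y))
            (monomial (s - Finsupp.single v 1) (1 : k)) := by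
      intro y
      have h5 : monomial s (1 : k) = X v * monomial (s - Finsupp.single v 1) (1 : k) := by
        rw [X, monomial_mul, mul_one, ← hs']
      rw [h5, map_mul, aeval_X]
    simp only [h4]
    exact h3

theorem isPoly_aeval {σ : Type} (α : σ → Fin d → k) {e : ℕ} {F : MvPolynomial (Fin N × σ) k}
    (hF : F.IsHomogeneous e) : IsPoly c N (N + e) (fun y =>
      aeval (fun v : Fin N × σ => sg k (E y) v.1 (celt (c := c) (α v.2) y)) F) := by
  classical
  have key : ∀ S : Finset (Fin N × σ →₀ ℕ), S ⊆ F.support → IsPoly c N (N + e) (fun y =>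
      ∑ s ∈ S, coeff s F • aeval (fun v : Fin N × σ => sg k (E y) v.1 (celt (c := c) (α v.2) y))
        (monomial s (1 : k))) := by
    intro S
    induction S using Finset.induction_on with
    | empty =>
      intro _
      simp only [Finset.sum_empty]
      exact isPoly_zero _
    | insert s S hs ih =>
      intro hS
      simp only [Finset.sum_insert hs]
      refine IsPoly.add (IsPoly.smul (isPoly_monomial α e s ?_) _)
        (ih ((Finset.subset_insert _ _).trans hS))
      have h1 := hS (Finset.mem_insert_self s S)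
      rw [mem_support_iff] at h1
      rw [Finsupp.degree_eq_weight_one]
      exact hF h1
  have h1 := key F.support subset_rfl
  have h2 : ∀ y, ∑ s ∈ F.support, coeff s F •
      aeval (fun v : Fin N × σ => sg k (E y) v.1 (celt (c := c) (α v.2) y))
        (monomial s (1 : k)) =
      aeval (fun v : Fin N × σ => sg k (E y) v.1 (celt (c := c) (α v.2) y)) F := by
    intro y
    conv_rhs => rw [F.as_sum, map_sum]
    refine Finset.sum_congr rfl fun s _ => ?_
    rw [← map_smul, smul_monomial, smul_eq_mul, mul_one]
  simp only [h2] at h1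
  exact h1

end poly

end Pool.Agent.N86.SQ
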