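import Pool.Agent.N86.SQ.Sub
import Pool.Agent.TH671.DU.Poly

/-!
# Smoothability defects and growth rates of subquotients
-/

set_option autoImplicit false
set_option linter.unusedSectionVars false

namespace Pool.Agent.N86.SQ

open scoped TensorProduct PowerSeries Topology
open Pool.Agent.H826R3.SM Pool.Agent.TH671.DU

variable {k : Type} [Field k]

/-- `A` is a quotient of a subalgebra of `B`. -/
def IsSubquotient (k : Type) [Field k] (A : Type) [CommRing A] [Algebra k A] (B : Type)
    [CommRing B] [Algebra k B] : Prop :=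
  ∃ (S : Subalgebra k B) (f : S →ₐ[k] A), Function.Surjective f

section

variable {A B C : Type} [CommRing A] [Algebra k A] [CommRing B] [Algebra k B] [CommRing C]
  [Algebra k C]

theorem IsSubquotient.mk' (g : C →ₐ[k] B) (hg : Function.Injective g) (f : C →ₐ[k] A)
    (hf : Function.Surjective f) : IsSubquotient k A B := by
  let e : C ≃ₐ[k] g.range := AlgEquiv.ofInjective g hg
  exact ⟨g.range, f.comp e.symm.toAlgHom, hf.comp e.symm.surjective⟩

theorem IsSubquotient.of_surjective (f : B →ₐ[k] A) (hf : Function.Surjective f) :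
    IsSubquotient k A B := IsSubquotient.mk' (AlgHom.id k B) Function.injective_id f hf

theorem IsSubquotient.of_injective (f : A →ₐ[k] B) (hf : Function.Injective f) :
    IsSubquotient k A B := IsSubquotient.mk' f hf (AlgHom.id k A) Function.surjective_id

theorem IsSubquotient.fam (h : IsSubquotient k A B) {D : ℕ} (hB : Fam k B D) : Fam k A D := by
  obtain ⟨S, f, hf⟩ := h
  exact (fam_sub hB S.val Subtype.val_injective).of_surjective f hf

theorem IsSubquotient.pow (h : IsSubquotient k A B) (n : ℕ) :
    IsSubquotient k (Pow k A n) (Pow k B n) := by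
  obtain ⟨S, f, hf⟩ := h
  refine IsSubquotient.mk' (powLift fun i : Fin n => (sg k B i).comp S.val)
    (powLift_injective S.val Subtype.val_injective n)
    (powLift fun i : Fin n => (sg k A i).comp f) ?_
  refine powLift_surjective _ fun T hT => pow_eq_top T fun i x => ?_
  obtain ⟨y, rfl⟩ := hf x
  exact hT i y

theorem IsSubquotient.trans {E : Type} [CommRing E] [Algebra k E] (h : IsSubquotient k A B)
    (h' : IsSubquotient k B E) : IsSubquotient k A E := by
  obtain ⟨S, f, hf⟩ := h
  obtain ⟨T, g, hg⟩ := h'
  -- the preimage of `S` in `T`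
  let P : Subalgebra k T := S.comap g
  let q : P →ₐ[k] S := (g.comp P.val).codRestrict S fun x => x.2
  have hq : Function.Surjective q := by
    rintro ⟨s, hs⟩
    obtain ⟨t, rfl⟩ := hg s
    exact ⟨⟨t, hs⟩, rfl⟩
  exact IsSubquotient.mk' (T.val.comp P.val)
    (Subtype.val_injective.comp Subtype.val_injective) (f.comp q) (hf.comp hq)

end

variable [IsAlgClosed k]

section

variable {A B : Type} [CommRing A] [Algebra k A] [Module.Finite k A] [CommRing B] [Algebra k B]
  [Module.Finite k B]

theorem IsSubquotient.mdeg_le (h : IsSubquotient k A B) : mdeg k A ≤ mdeg k B := by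
  obtain ⟨D, hD⟩ := exists_fam (k := k) B
  exact TH671.DU.mdeg_le (h.fam (mdeg_spec hD))

theorem IsSubquotient.defect_le (h : IsSubquotient k A B) :
    Module.finrank k A + defect k A ≤ Module.finrank k B + defect k B := by
  rw [fadd k A, fadd k B]
  exact h.mdeg_le

theorem rate_le [Nontrivial A] [Nontrivial B] (h : IsSubquotient k A B) :
    rate k A ≤ rate k B := by
  rw [rate_eq A, rate_eq B]
  refine le_ciInf fun n => ?_
  refine (irate_le (fun n => mdeg k (Pow k A n)) n).trans ?_
  refine Real.rpow_le_rpow (Nat.cast_nonneg _) ?_ (by positivity)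
  exact_mod_cast (h.pow (n + 1)).mdeg_le

theorem rate_congr [Nontrivial A] [Nontrivial B] (e : A ≃ₐ[k] B) : rate k A = rate k B :=
  le_antisymm (rate_le (IsSubquotient.of_injective e.toAlgHom e.injective))
    (rate_le (IsSubquotient.of_injective e.symm.toAlgHom e.symm.injective))

variable (A) in
theorem nontrivial_pow [Nontrivial A] (m : ℕ) : Nontrivial (Pow k A m) :=
  Module.nontrivial_of_finrank_pos (R := k) (by
    rw [finrank_Pow']
    exact pow_pos Module.finrank_pos _)

variable (A) in
theorem rate_pow' [Nontrivial A] (m : ℕ) : rate k (Pow k A m) = rate k A ^ m := by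
  have h1 := rate_powUnion (k := k) A (l := 1) (fun _ => m) le_rfl
  rw [Finset.univ_unique, Finset.sum_singleton] at h1
  have := nontrivial_pow (k := k) A m
  rw [← h1]
  refine rate_congr ?_
  exact (AlgEquiv.funUnique k (Fin 1) (Pow k A m)).symm

/-- a smoothable algebra lies in a smoothable scheme of its own degree -/
theorem Smoothable.fam (h : Smoothable k B) : Fam k B (Module.finrank k B) :=
  InSmoothable.fam ⟨B, inferInstance, inferInstance, inferInstance, h, rfl, AlgHom.id k B,
    Function.surjective_id⟩

/-- the powers of a smoothable algebra -/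
theorem Smoothable.pow_fam (h : Smoothable k B) (n : ℕ) :
    Fam k (Pow k B n) (Module.finrank k (Pow k B n)) := by
  rw [finrank_Pow']
  have h1 : ∀ n : ℕ, Fam k (Pow k B n) (mdeg k B ^ n) := by
    intro n
    induction n with
    | zero =>
      rw [pow_zero]
      have h0 : Module.finrank k (Pow k B 0) = 1 := by rw [finrank_Pow', pow_zero]
      have hnt : Nontrivial (Pow k B 0) :=
        Module.nontrivial_of_finrank_pos (R := k) (by rw [h0]; exact one_pos)
      refine fam_self.of_surjective (Algebra.ofId k (Pow k B 0)) ?_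
      have h2 := Subalgebra.bot_eq_top_of_finrank_eq_one h0
      intro y
      have : y ∈ (⊥ : Subalgebra k (Pow k B 0)) := by rw [h2]; trivial
      rw [Algebra.mem_bot] at this
      exact this
    | succ n ih =>
      rw [pow_succ]
      refine Fam.join ih (mdeg_spec (Smoothable.fam h))
        (powLift fun i => sg k B (Fin.castAdd 1 i)) (sg k B (Fin.natAdd n 0)) ?_
      refine pow_eq_top _ fun i x => ?_
      refine Fin.addCases (fun i => ?_) (fun i => ?_) i
      · exact (le_sup_left : (powLift fun i => sg k B (Fin.castAdd 1 i)).range ≤ _)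
          ⟨sg k B i x, powLift_single _ i x⟩
      · rw [Subsingleton.elim i 0]
        exact (le_sup_right : (sg k B (Fin.natAdd n 0)).range ≤ _) ⟨x, rfl⟩
  exact (h1 n).mono (Nat.pow_le_pow_left (TH671.DU.mdeg_le (Smoothable.fam h)) n)

theorem rate_of_smoothable [Nontrivial B] (h : Smoothable k B) :
    rate k B = Module.finrank k B := by
  apply le_antisymm _ (finrank_le_rate B)
  have h1 := rate_pow_le (k := k) B 1
  have h2 : mdeg k (Pow k B 1) ≤ Module.finrank k B := by
    have h3 : IsSubquotient k (Pow k B 1) B := by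
      refine IsSubquotient.of_surjective (sg k B 0) ?_
      rw [← AlgHom.range_eq_top]
      refine pow_eq_top _ fun i x => ?_
      rw [Subsingleton.elim i 0]
      exact ⟨x, rfl⟩
    exact TH671.DU.mdeg_le (h3.fam (Smoothable.fam h))
  rw [pow_one] at h1
  exact h1.trans (by exact_mod_cast h2)

end

/-- **Q1 through subquotients.** -/
theorem qOne_iff_sub (A : Type) [CommRing A] [Algebra k A] [Module.Finite k A] [Nontrivial A] :
    QOne k A ↔ ∀ η : ℝ, 0 < η → ∃ (m : ℕ) (B : Type) (_ : CommRing B) (_ : Algebra k B)
      (_ : Module.Finite k B), 1 ≤ m ∧ Smoothable k B ∧ IsSubquotient k (Pow k A m) B ∧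
        (Module.finrank k B : ℝ) ≤ ((1 + η) * Module.finrank k A) ^ m := by
  have hd : (1 : ℝ) ≤ Module.finrank k A := by
    exact_mod_cast (Module.finrank_pos (R := k) (M := A))
  rw [qOne_iff_rate]
  constructor
  · intro h η hη
    -- the infimum defining the rate is less than `(1 + η) d`
    have h1 : rate k A < (1 + η) * Module.finrank k A := by
      rw [h]
      nlinarith
    rw [rate_eq A] at h1
    obtain ⟨N, hN⟩ := exists_lt_of_ciInf_lt h1
    obtain ⟨D, hD⟩ := exists_fam (k := k) (Pow k A (N + 1))
    obtain ⟨D', hD', B, cB, aB, hBf, hBs, hBd, f, hf⟩ := (mdeg_spec hD).inSmoothable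
    refine ⟨N + 1, B, cB, aB, hBf, by omega, hBs, IsSubquotient.of_surjective f hf, ?_⟩
    have h2 : ((mdeg k (Pow k A (N + 1)) : ℕ) : ℝ) ≤
        ((1 + η) * Module.finrank k A) ^ (N + 1) := by
      have h3 := pow_le_pow_left₀ (by positivity) hN.le (N + 1)
      refine le_trans (le_of_eq ?_) h3
      rw [← Real.rpow_natCast, ← Real.rpow_mul (Nat.cast_nonneg _)]
      push_cast
      rw [one_div, inv_mul_cancel₀ (by positivity), Real.rpow_one]
    refine le_trans ?_ h2
    rw [hBd]
    exact_mod_cast hD'
  · intro h
    refine le_antisymm ?_ (finrank_le_rate A)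
    have h1 : ∀ η : ℝ, 0 < η → rate k A ≤ (1 + η) * Module.finrank k A := by
      intro η hη
      obtain ⟨m, B, cB, aB, hBf, hm, hBs, hsub, hB⟩ := h η hη
      have h2 : mdeg k (Pow k A m) ≤ Module.finrank k B :=
        TH671.DU.mdeg_le (hsub.fam (Smoothable.fam hBs))
      have h3 : rate k A ^ m ≤ ((1 + η) * Module.finrank k A) ^ m :=
        (rate_pow_le A m).trans ((by exact_mod_cast h2 : ((mdeg k (Pow k A m) : ℕ) : ℝ) ≤
          Module.finrank k B).trans hB)
      exact le_of_pow_le_pow_left₀ (by omega) (by positivity) h3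
    by_contra hcon
    push Not at hcon
    have h2 := h1 ((rate k A / Module.finrank k A - 1) / 2) (by
      have : 1 < rate k A / Module.finrank k A := (one_lt_div (by linarith)).2 hcon
      linarith)
    have h3 : (1 + (rate k A / Module.finrank k A - 1) / 2) * Module.finrank k A =
        (rate k A + Module.finrank k A) / 2 := by
      field_simp
      ring
    rw [h3] at h2
    linarith

/-- The same with schemes for which Q1 holds in place of smoothable ones. -/
theorem qOne_of_sub (A : Type) [CommRing A] [Algebra k A] [Module.Finite k A] [Nontrivial A]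
    (h : ∀ η : ℝ, 0 < η → ∃ (m : ℕ) (B : Type) (_ : CommRing B) (_ : Algebra k B)
      (_ : Module.Finite k B) (_ : Nontrivial B), 1 ≤ m ∧ QOne k B ∧
        IsSubquotient k (Pow k A m) B ∧
        (Module.finrank k B : ℝ) ≤ ((1 + η) * Module.finrank k A) ^ m) : QOne k A := by
  have hd : (1 : ℝ) ≤ Module.finrank k A := by
    exact_mod_cast (Module.finrank_pos (R := k) (M := A))
  rw [qOne_iff_rate]
  refine le_antisymm ?_ (finrank_le_rate A)
  have h1 : ∀ η : ℝ, 0 < η → rate k A ≤ (1 + η) * Module.finrank k A := by
    intro η hη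
    obtain ⟨m, B, cB, aB, hBf, hBn, hm, hBs, hsub, hB⟩ := h η hη
    have := nontrivial_pow (k := k) A m
    have h3 : rate k A ^ m ≤ ((1 + η) * Module.finrank k A) ^ m := by
      rw [← rate_pow' A m]
      refine (rate_le hsub).trans ?_
      rw [(qOne_iff_rate B).1 hBs]
      exact hB
    exact le_of_pow_le_pow_left₀ (by omega) (by positivity) h3
  by_contra hcon
  push Not at hcon
  have h2 := h1 ((rate k A / Module.finrank k A - 1) / 2) (by
    have : 1 < rate k A / Module.finrank k A := (one_lt_div (by linarith)).2 hcon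
    linarith)
  have h3 : (1 + (rate k A / Module.finrank k A - 1) / 2) * Module.finrank k A =
      (rate k A + Module.finrank k A) / 2 := by
    field_simp
    ring
  rw [h3] at h2
  linarith

end Pool.Agent.N86.SQ
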