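import Pool.Agent.N86.SQ.Lines
import Pool.Agent.N86.SQ.Rate
import Pool.Agent.H826R3.SM.Local
import Pool.Agent.H826R3.SM.WAsym
import Pool.Agent.TH671.SH.Degen
import Pool.Agent.TH671.DU.Red

/-!
# The growth of the number of lines
-/

set_option autoImplicit false
set_option linter.unusedSectionVars false

namespace Pool.Agent.N86.SQ

open scoped TensorProduct PowerSeries Topology
open Pool.Agent.H826R3.SM Pool.Agent.TH671.DU
open Filter

variable {k : Type} [Field k]

/-- The least number of lines through the origin of an affine space whose union contains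
`Spec A`. -/
noncomputable def lineNumber (k : Type) [Field k] (A : Type) [CommRing A] [Algebra k A] : ℕ :=
  sInf {W : ℕ | InLines k A W}

theorem mem_span_of_nilpotent {A : Type} [CommRing A] [Algebra k A] {σ : Type} (a : σ → A) {m : ℕ}
    (hgen : Algebra.adjoin k (Set.range a) = ⊤) (hnil : Ideal.span (Set.range a) ^ (m + 1) = ⊥)
    (x : A) (hx : IsNilpotent x) : x ∈ Ideal.span (Set.range a) := by
  have key : ∀ x : A, x ∈ Algebra.adjoin k (Set.range a) →
      ∃ c : k, x - algebraMap k A c ∈ Ideal.span (Set.range a) := by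
    intro x h1
    induction h1 using Algebra.adjoin_induction with
    | mem x hx => exact ⟨0, by rw [map_zero, sub_zero]; exact Ideal.subset_span hx⟩
    | algebraMap r => exact ⟨r, by rw [sub_self]; exact Ideal.zero_mem _⟩
    | add x y _ _ h1 h2 =>
      obtain ⟨c, hc⟩ := h1
      obtain ⟨d, hd⟩ := h2
      refine ⟨c + d, ?_⟩
      have h3 : x + y - algebraMap k A (c + d) =
          (x - algebraMap k A c) + (y - algebraMap k A d) := by
        rw [map_add]
        ring
      rw [h3]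
      exact Ideal.add_mem _ hc hd
    | mul x y _ _ h1 h2 =>
      obtain ⟨c, hc⟩ := h1
      obtain ⟨d, hd⟩ := h2
      refine ⟨c * d, ?_⟩
      have h3 : x * y - algebraMap k A (c * d) =
          y * (x - algebraMap k A c) + algebraMap k A c * (y - algebraMap k A d) := by
        rw [map_mul]
        ring
      rw [h3]
      exact Ideal.add_mem _ (Ideal.mul_mem_left _ _ hc) (Ideal.mul_mem_left _ _ hd)
  obtain ⟨c, hc⟩ := key x (by rw [hgen]; trivial)
  by_cases hc0 : c = 0
  · rw [hc0, map_zero, sub_zero] at hc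
    exact hc
  · have h2 : IsNilpotent (x - algebraMap k A c) := by
      refine ⟨m + 1, ?_⟩
      have := Ideal.pow_mem_pow hc (m + 1)
      rw [hnil] at this
      exact this
    have h3 : IsNilpotent (algebraMap k A c) := by
      have := (Commute.all x (x - algebraMap k A c)).isNilpotent_sub hx h2
      rwa [sub_sub_cancel] at this
    have h4 : IsUnit (algebraMap k A c) := (Ne.isUnit hc0).map _
    obtain ⟨n, hn⟩ := h3
    have h5 : IsUnit (0 : A) := hn ▸ h4.pow n
    have h6 : (0 : A) = 1 := isUnit_zero_iff.1 h5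
    have : x = 0 := by rw [← mul_one x, ← h6, mul_zero]
    rw [this]
    exact Ideal.zero_mem _

variable [IsAlgClosed k]

/-- augmentation and generators of the maximal ideal of a local algebra -/
theorem local_gens (A : Type) [CommRing A] [Algebra k A] [Module.Finite k A] [IsLocalRing A] :
    ∃ (_ : A →ₐ[k] k) (l : ℕ) (a : Fin l → A) (e : ℕ),
      Algebra.adjoin k (Set.range a) = ⊤ ∧ Ideal.span (Set.range a) ^ (e + 1) = ⊥ := by
  have hart : IsArtinianRing A := IsArtinianRing.of_finite k A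
  set M : Ideal A := IsLocalRing.maximalIdeal A with hM
  have hMmax : M.IsMaximal := IsLocalRing.maximalIdeal.isMaximal A
  let _ : Field (A ⧸ M) := Ideal.Quotient.field M
  have hbij : Function.Bijective (algebraMap k (A ⧸ M)) :=
    IsAlgClosed.algebraMap_bijective_of_isIntegral
  let ee : k ≃ₐ[k] (A ⧸ M) := AlgEquiv.ofBijective (Algebra.ofId k (A ⧸ M)) hbij
  let aug : A →ₐ[k] k := ee.symm.toAlgHom.comp (Ideal.Quotient.mkₐ k M)
  have haug : ∀ x, aug x = 0 → x ∈ M := by
    intro x hx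
    have h1 : ee.symm (Ideal.Quotient.mk M x) = 0 := hx
    rw [map_eq_zero_iff _ ee.symm.injective] at h1
    exact Ideal.Quotient.eq_zero_iff_mem.mp h1
  let W : Submodule k A := M.restrictScalars k
  let b := Module.finBasis k W
  let a : Fin (Module.finrank k W) → A := fun i => (b i : A)
  have hWspan : W ≤ Submodule.span k (Set.range a) := by
    intro x hx
    have h1 : x = ((∑ i, b.repr ⟨x, hx⟩ i • b i : W) : A) := by
      rw [b.sum_repr]
    rw [h1, Submodule.coe_sum]
    refine Submodule.sum_mem _ fun i _ => ?_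
    rw [Submodule.coe_smul]
    exact Submodule.smul_mem _ _ (Submodule.subset_span ⟨i, rfl⟩)
  have hgen : Algebra.adjoin k (Set.range a) = ⊤ := by
    rw [eq_top_iff]
    rintro x -
    have h1 : x - algebraMap k A (aug x) ∈ M := by
      apply haug
      rw [map_sub, AlgHom.commutes]
      exact sub_self _
    have h2 : x - algebraMap k A (aug x) ∈ Algebra.adjoin k (Set.range a) :=
      Algebra.span_le_adjoin k _ (hWspan h1)
    have h3 : x = (x - algebraMap k A (aug x)) + algebraMap k A (aug x) := by ring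
    rw [h3]
    exact Subalgebra.add_mem _ h2 (Subalgebra.algebraMap_mem _ _)
  obtain ⟨e, he⟩ : ∃ e, M ^ e = ⊥ := by
    have h1 := IsArtinianRing.isNilpotent_jacobson_bot (R := A)
    rw [IsLocalRing.jacobson_eq_maximalIdeal ⊥ bot_ne_top] at h1
    exact h1
  refine ⟨aug, _, a, e, hgen, ?_⟩
  have h1 : Ideal.span (Set.range a) ≤ M := by
    rw [Ideal.span_le]
    rintro _ ⟨i, rfl⟩
    exact (b i).2
  rw [eq_bot_iff]
  refine (Ideal.pow_right_mono h1 _).trans ?_
  rw [pow_succ, he]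
  simp

theorem fam_pow_of_lines {A : Type} [CommRing A] [Algebra k A] {σ : Type} {a : σ → A} {e : ℕ}
    (hgen : Algebra.adjoin k (Set.range a) = ⊤) (hnil : Ideal.span (Set.range a) ^ (e + 1) = ⊥)
    {n W : ℕ} (h : InLines k (Pow k A n) W) : Fam k (Pow k A n) (W * ((e + 1) * n + 2)) :=
  fam_of_lines h fun I _ hI => by
    rw [eq_bot_iff, ← nil_pow a e hnil n]
    exact Ideal.pow_right_mono (fun x hx => mem_span_of_nilpotent _ (adjoin_pow hgen n)
      (nil_pow a e hnil n) x (hI x hx)) _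

theorem isNilpotent_gen {A σ : Type} [CommRing A] (a : σ → A) {m : ℕ}
    (h : Ideal.span (Set.range a) ^ (m + 1) = ⊥) (v : σ) : IsNilpotent (a v) := by
  refine ⟨m + 1, ?_⟩
  have := Ideal.pow_mem_pow (Ideal.subset_span (α := A) ⟨v, rfl⟩ : a v ∈ Ideal.span (Set.range a))
    (m + 1)
  rw [h] at this
  exact this

theorem regroup_surjective {A : Type} [CommRing A] [Algebra k A]
    (aug : A →ₐ[k] k) {N : ℕ} (hN : 0 < N) (M : ℕ) :
    Function.Surjective (powLift fun i : Fin (M / N + 1) => ff aug N M i) := by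
  refine powLift_surjective _ fun S hS => pow_eq_top S fun l x => ?_
  have hl : (l : ℕ) / N < M / N + 1 := Nat.lt_succ_of_le (Nat.div_le_div_right l.2.le)
  have hm : (l : ℕ) % N < N := Nat.mod_lt _ hN
  have h1 := hS ⟨(l : ℕ) / N, hl⟩ (sg k A ⟨(l : ℕ) % N, hm⟩ x)
  have hlM : ((l : ℕ) / N) * N + (l : ℕ) % N = l := Nat.div_add_mod' _ _
  have h2 : ((l : ℕ) / N) * N + (⟨(l : ℕ) % N, hm⟩ : Fin N) < M := by
    change ((l : ℕ) / N) * N + (l : ℕ) % N < M
    rw [hlM]
    exact l.2
  change ff aug N M ((l : ℕ) / N) (sg k A ⟨(l : ℕ) % N, hm⟩ x) ∈ S at h1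
  rw [ff_single aug N M _ _ h2] at h1
  have h3 : (⟨((l : ℕ) / N) * N + (⟨(l : ℕ) % N, hm⟩ : Fin N), h2⟩ : Fin M) = l := Fin.ext hlM
  rwa [h3] at h1

/-- **The number of lines grows at most like `deg + δ`.** -/
theorem lines_growth (A : Type) [CommRing A] [Algebra k A] [Module.Finite k A] [IsLocalRing A]
    (η : ℝ) (hη : 0 < η) : ∃ C : ℝ, 0 ≤ C ∧ ∀ n : ℕ, ∃ W : ℕ, (W : ℝ) ≤ C * (rate k A + η) ^ n ∧
      InLines k (Pow k A n) W := by
  classical
  obtain ⟨aug, l, a, e, hgen, hnil⟩ := local_gens (k := k) A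
  have hr1 := one_le_rate (k := k) A
  set x' : ℝ := rate k A + η / 2 with hx'
  set x : ℝ := rate k A + η with hx
  have hlt : rate k A < x' := by linarith
  have hx1 : 1 ≤ x' := by linarith
  have hxx : x' < x := by linarith
  have h1 := hlt
  rw [rate_eq A] at h1
  obtain ⟨N, hN⟩ := exists_lt_of_ciInf_lt h1
  obtain ⟨D', hD'⟩ := exists_fam (k := k) (Pow k A (N + 1))
  have hD := mdeg_spec hD'
  set D := mdeg k (Pow k A (N + 1)) with hDdef
  have hDx : (D : ℝ) ≤ x' ^ (N + 1) := by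
    have h3 := pow_le_pow_left₀ (by positivity) hN.le (N + 1)
    refine le_trans (le_of_eq ?_) h3
    rw [← Real.rpow_natCast, ← Real.rpow_mul (Nat.cast_nonneg _)]
    push_cast
    rw [one_div, inv_mul_cancel₀ (by positivity), Real.rpow_one]
  set b : Fin (N + 1) × Fin l → Pow k A (N + 1) := fun v => sg k A v.1 (a v.2) with hb
  have hbnil := nil_pow (k := k) a e hnil (N + 1)
  obtain ⟨e', h, hlp⟩ := lines_pow hD b (isNilpotent_gen b hbnil) (adjoin_pow hgen (N + 1))
  set c : ℕ := (e + 1) * (N + 1) + 1 with hc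
  set K : ℝ := ((c : ℝ) * h + 1) * (c + 1) ^ e' with hK
  obtain ⟨B, hB0, hB⟩ := poly_mul_geom_bdd (e' + 2) (z := x' / x) (by positivity)
    ((div_lt_one (by linarith)).2 hxx)
  refine ⟨K * 2 ^ (e' + 2) * x' ^ (N + 1) * (B / (x' / x)), by positivity, fun n => ?_⟩
  set j : ℕ := n / (N + 1) + 1 with hj
  obtain ⟨W, hW, hWl⟩ := hlp j (c * j) (nil_pow (k := k) b ((e + 1) * (N + 1)) hbnil j)
  refine ⟨W, ?_, hWl.of_surjective _ (regroup_surjective aug (Nat.succ_pos N) n)⟩
  have hjn : (N + 1) * j ≤ n + (N + 1) := by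
    have := Nat.mul_div_le n (N + 1)
    rw [hj, mul_add, mul_one]
    omega
  have hj1 : (j : ℝ) + 1 ≤ 2 * (n + 1) := by
    have h3 : j ≤ n + 1 := by
      rw [hj]
      exact Nat.succ_le_succ (Nat.div_le_self _ _)
    have h4 : (j : ℝ) ≤ n + 1 := by exact_mod_cast h3
    have h5 : (0 : ℝ) ≤ n := Nat.cast_nonneg _
    linarith
  have hj0 : (0 : ℝ) ≤ j := Nat.cast_nonneg _
  have hc0 : (0 : ℝ) ≤ c := Nat.cast_nonneg _
  have hh0 : (0 : ℝ) ≤ h := Nat.cast_nonneg _
  have hn0 : (0 : ℝ) ≤ n := Nat.cast_nonneg _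
  have hW' : (W : ℝ) ≤ (D : ℝ) ^ j * (((c : ℝ) * j * (j * h) + 1) * (c * j + 1) ^ e') := by
    exact_mod_cast hW
  have hDj : (D : ℝ) ^ j ≤ x' ^ (N + 1) * x' ^ n := by
    calc (D : ℝ) ^ j ≤ (x' ^ (N + 1)) ^ j := pow_le_pow_left₀ (Nat.cast_nonneg _) hDx _
      _ = x' ^ ((N + 1) * j) := (pow_mul _ _ _).symm
      _ ≤ x' ^ (n + (N + 1)) := pow_le_pow_right₀ hx1 hjn
      _ = x' ^ (N + 1) * x' ^ n := by rw [pow_add, mul_comm]
  have hp1 : (c : ℝ) * j * (j * h) + 1 ≤ (c * h + 1) * (j + 1) ^ 2 := by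
    have h6 : (0 : ℝ) ≤ c * h := by positivity
    nlinarith [mul_nonneg h6 hj0, mul_nonneg hj0 hj0]
  have hp2 : ((c : ℝ) * j + 1) ^ e' ≤ (c + 1) ^ e' * (j + 1) ^ e' := by
    rw [← mul_pow]
    refine pow_le_pow_left₀ (by positivity) ?_ _
    nlinarith
  have hp3 : ((c : ℝ) * j * (j * h) + 1) * (c * j + 1) ^ e' ≤
      K * 2 ^ (e' + 2) * (n + 1) ^ (e' + 2) := by
    calc ((c : ℝ) * j * (j * h) + 1) * (c * j + 1) ^ e'
        ≤ ((c * h + 1) * (j + 1) ^ 2) * ((c + 1) ^ e' * (j + 1) ^ e') :=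
          mul_le_mul hp1 hp2 (by positivity) (by positivity)
      _ = K * (j + 1) ^ (e' + 2) := by rw [hK, pow_add]; ring
      _ ≤ K * (2 * (n + 1)) ^ (e' + 2) := by
          refine mul_le_mul_of_nonneg_left ?_ (by positivity)
          exact pow_le_pow_left₀ (by positivity) hj1 _
      _ = K * 2 ^ (e' + 2) * (n + 1) ^ (e' + 2) := by rw [mul_pow]; ring
  have hx0 : 0 < x' / x := by
    have : 0 < x := by linarith
    positivity
  have hgeo : ((n : ℝ) + 1) ^ (e' + 2) * x' ^ n ≤ B / (x' / x) * x ^ n := by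
    have h7 := hB (n + 1)
    push_cast at h7
    have hxn : x' ^ n = (x' / x) ^ n * x ^ n := by
      rw [← mul_pow, div_mul_cancel₀ _ (by linarith : x ≠ 0).symm.symm]
    rw [hxn, ← mul_assoc]
    refine mul_le_mul_of_nonneg_right ?_ (pow_nonneg (by linarith) _)
    rw [le_div_iff₀ hx0]
    calc ((n : ℝ) + 1) ^ (e' + 2) * (x' / x) ^ n * (x' / x)
        = ((n : ℝ) + 1) ^ (e' + 2) * (x' / x) ^ (n + 1) := by rw [pow_succ]; ring
      _ ≤ B := h7
  calc (W : ℝ) ≤ (D : ℝ) ^ j * (((c : ℝ) * j * (j * h) + 1) * (c * j + 1) ^ e') := hW'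
    _ ≤ (x' ^ (N + 1) * x' ^ n) * (K * 2 ^ (e' + 2) * (n + 1) ^ (e' + 2)) :=
        mul_le_mul hDj hp3 (by positivity) (by positivity)
    _ = K * 2 ^ (e' + 2) * x' ^ (N + 1) * ((n + 1) ^ (e' + 2) * x' ^ n) := by ring
    _ ≤ K * 2 ^ (e' + 2) * x' ^ (N + 1) * (B / (x' / x) * x ^ n) :=
        mul_le_mul_of_nonneg_left hgeo (by positivity)
    _ = K * 2 ^ (e' + 2) * x' ^ (N + 1) * (B / (x' / x)) * x ^ n := by ring

section final

variable (A : Type) [CommRing A] [Algebra k A] [Module.Finite k A] [IsLocalRing A]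

theorem inLines_lineNumber (n : ℕ) : InLines k (Pow k A n) (lineNumber k (Pow k A n)) := by
  obtain ⟨C, -, h⟩ := lines_growth (k := k) A 1 one_pos
  obtain ⟨W, -, hW⟩ := h n
  exact Nat.sInf_mem (s := {W : ℕ | InLines k (Pow k A n) W}) ⟨W, hW⟩

theorem lineNumber_growth (η : ℝ) (hη : 0 < η) : ∃ C : ℝ, 0 ≤ C ∧ ∀ n : ℕ,
    (lineNumber k (Pow k A n) : ℝ) ≤ C * (rate k A + η) ^ n := by
  obtain ⟨C, hC, h⟩ := lines_growth (k := k) A η hη
  refine ⟨C, hC, fun n => ?_⟩
  obtain ⟨W, hW1, hW⟩ := h n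
  exact le_trans (by exact_mod_cast Nat.sInf_le (s := {W : ℕ | InLines k (Pow k A n) W}) hW) hW1

theorem lineNumber_lower : ∃ s : ℕ, ∀ n : ℕ,
    mdeg k (Pow k A n) ≤ (s * n + 2) * lineNumber k (Pow k A n) := by
  obtain ⟨aug, l, a, e, hgen, hnil⟩ := local_gens (k := k) A
  refine ⟨e + 1, fun n => ?_⟩
  rw [mul_comm]
  exact TH671.DU.mdeg_le (fam_pow_of_lines hgen hnil (inLines_lineNumber A n))

theorem lineNumber_tendsto : Tendsto (fun n : ℕ =>
    (lineNumber k (Pow k A (n + 1)) : ℝ) ^ (1 / ((n : ℝ) + 1))) atTop (𝓝 (rate k A)) := by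
  have h1 := one_le_rate (k := k) A
  refine tendsto_order.2 ⟨fun a ha => ?_, fun b hb => ?_⟩
  · obtain ⟨s, hs⟩ := lineNumber_lower (k := k) A
    rcases lt_or_ge a 0 with ha0 | ha0
    · exact Eventually.of_forall fun n => lt_of_lt_of_le ha0 (by positivity)
    have ht := Pool.Agent.TH671.SH.tendsto_root' 1 ((s : ℝ) + 2) (by positivity) a ha0
    filter_upwards [ht.eventually_lt_const ha] with n hn
    by_contra hcon
    push Not at hcon
    have h2 : (lineNumber k (Pow k A (n + 1)) : ℝ) ≤ a ^ (n + 1) := by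
      have h3 := pow_le_pow_left₀ (by positivity) hcon (n + 1)
      refine le_trans (le_of_eq ?_) h3
      rw [← Real.rpow_natCast, ← Real.rpow_mul (Nat.cast_nonneg _)]
      push_cast
      rw [one_div, inv_mul_cancel₀ (by positivity), Real.rpow_one]
    have h4 : rate k A ^ (n + 1) ≤ ((s : ℝ) + 2) * ((n : ℝ) + 1) ^ 1 * a ^ (n + 1) := by
      calc rate k A ^ (n + 1) ≤ mdeg k (Pow k A (n + 1)) := rate_pow_le A (n + 1)
        _ ≤ ((s : ℝ) * (n + 1) + 2) * lineNumber k (Pow k A (n + 1)) := by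
            exact_mod_cast hs (n + 1)
        _ ≤ (((s : ℝ) + 2) * ((n : ℝ) + 1) ^ 1) * a ^ (n + 1) := by
            refine mul_le_mul ?_ h2 (Nat.cast_nonneg _) (by positivity)
            have : (0 : ℝ) ≤ n := Nat.cast_nonneg _
            nlinarith
    have h5 : rate k A ≤ (((s : ℝ) + 2) * ((n : ℝ) + 1) ^ 1 * a ^ (n + 1)) ^
        ((1 : ℝ) / ((n : ℝ) + 1)) := by
      have h6 := Real.rpow_le_rpow (by positivity) h4 (show (0 : ℝ) ≤ 1 / ((n : ℝ) + 1) by
        positivity)
      refine le_trans (le_of_eq ?_) h6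
      rw [← Real.rpow_natCast, ← Real.rpow_mul (by linarith)]
      push_cast
      rw [mul_one_div, div_self (by positivity), Real.rpow_one]
    exact absurd hn (not_lt.2 h5)
  · obtain ⟨C, hC, hG⟩ := lineNumber_growth (k := k) A ((b - rate k A) / 2) (by linarith)
    have ht := Pool.Agent.TH671.SH.tendsto_root' 0 (C + 1) (by positivity)
      (rate k A + (b - rate k A) / 2) (by linarith)
    have hb' : rate k A + (b - rate k A) / 2 < b := by linarith
    filter_upwards [ht.eventually_lt_const hb'] with n hn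
    refine lt_of_le_of_lt ?_ hn
    refine Real.rpow_le_rpow (by positivity) ?_ (by positivity)
    rw [pow_zero, mul_one]
    refine (hG (n + 1)).trans ?_
    have : 0 ≤ (rate k A + (b - rate k A) / 2) ^ (n + 1) := by
      have : 0 ≤ rate k A + (b - rate k A) / 2 := by linarith
      positivity
    nlinarith

theorem qOne_iff_lines : QOne k A ↔ Tendsto (fun n : ℕ =>
    (lineNumber k (Pow k A (n + 1)) : ℝ) ^ (1 / ((n : ℝ) + 1))) atTop
      (𝓝 (Module.finrank k A : ℝ)) := by
  rw [qOne_iff_rate]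
  constructor
  · intro h
    rw [← h]
    exact lineNumber_tendsto A
  · intro h
    exact tendsto_nhds_unique (lineNumber_tendsto A) h

end final

end Pool.Agent.N86.SQ
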