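import Pool.Agent.N86.SQ.Clo1
import Pool.Agent.N86.SQ.LineRate
import Pool.Agent.N86.SQ.BaseCh

/-!
# Truncation, tensor products and products of many factors
-/

set_option autoImplicit false
set_option linter.unusedSectionVars false

namespace Pool.Agent.N86.SQ

open scoped TensorProduct Topology
open Pool.Agent.H826R3.SM Pool.Agent.TH671.DU
open MvPolynomial

variable {k : Type} [Field k]

theorem isSubquotient_of_ker {τ A B : Type} [CommRing A] [Algebra k A] [CommRing B] [Algebra k B]
    (F : MvPolynomial τ k →ₐ[k] A) (hF : Function.Surjective F) (G : MvPolynomial τ k →ₐ[k] B)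
    (h : ∀ M, G M = 0 → F M = 0) : IsSubquotient k A B := by
  refine IsSubquotient.mk' (Ideal.kerLiftAlg G) (Ideal.kerLiftAlg_injective G)
    (Ideal.Quotient.liftₐ (RingHom.ker G) F fun M hM => h M hM) ?_
  intro x
  obtain ⟨M, rfl⟩ := hF x
  exact ⟨Ideal.Quotient.mk _ M, rfl⟩

/-- the truncated polynomial ring `k[t] / (t ^ (m + 1))` -/
abbrev Tr (k : Type) [Field k] (m : ℕ) : Type := AdjoinRoot (Polynomial.X ^ (m + 1) : Polynomial k)

theorem monic_tr (m : ℕ) : (Polynomial.X ^ (m + 1) : Polynomial k).Monic :=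
  Polynomial.monic_X_pow _

instance finite_tr (m : ℕ) : Module.Finite k (Tr k m) := (monic_tr m).finite_adjoinRoot

theorem root_tr (m : ℕ) : (AdjoinRoot.root (Polynomial.X ^ (m + 1) : Polynomial k)) ^ (m + 1) =
    0 := by
  have h := AdjoinRoot.eval₂_root (Polynomial.X ^ (m + 1) : Polynomial k)
  rwa [Polynomial.eval₂_pow, Polynomial.eval₂_X] at h

theorem exists_cf (m e : ℕ) (he : e ≤ m) : ∃ f : Tr k m →ₗ[k] k, ∀ e' : ℕ,
    f ((AdjoinRoot.root (Polynomial.X ^ (m + 1) : Polynomial k)) ^ e') = if e' = e then 1 else 0 := by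
  let B := AdjoinRoot.powerBasis' (monic_tr (k := k) m)
  have hdim : B.dim = m + 1 := by
    change (Polynomial.X ^ (m + 1) : Polynomial k).natDegree = m + 1
    rw [Polynomial.natDegree_X_pow]
  have hgen : B.gen = AdjoinRoot.root (Polynomial.X ^ (m + 1) : Polynomial k) := rfl
  refine ⟨B.basis.coord ⟨e, by omega⟩, fun e' => ?_⟩
  by_cases he' : e' < m + 1
  · have h1 : (AdjoinRoot.root (Polynomial.X ^ (m + 1) : Polynomial k)) ^ e' =
        B.basis ⟨e', by omega⟩ := by
      rw [B.basis_eq_pow, hgen]
    rw [h1, Module.Basis.coord_apply, Module.Basis.repr_self, Finsupp.single_apply]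
    by_cases h2 : e' = e
    · subst h2
      rw [if_pos rfl, if_pos rfl]
    · rw [if_neg h2, if_neg]
      intro h3
      exact h2 (congrArg Fin.val h3)
  · have h1 : (AdjoinRoot.root (Polynomial.X ^ (m + 1) : Polynomial k)) ^ e' = 0 := by
      obtain ⟨j, hj⟩ := Nat.exists_eq_add_of_le (Nat.not_lt.1 he')
      have h2 : (AdjoinRoot.root (Polynomial.X ^ (m + 1) : Polynomial k)) ^ (m + 1 + j) =
          (AdjoinRoot.root (Polynomial.X ^ (m + 1) : Polynomial k)) ^ (m + 1) *
            (AdjoinRoot.root (Polynomial.X ^ (m + 1) : Polynomial k)) ^ j := pow_add _ _ _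
      rw [hj, h2, root_tr, zero_mul]
    rw [h1, map_zero, if_neg (by omega)]

theorem aeval_tmul_root {τ P : Type} [CommRing P] [Algebra k P] (a' : τ → P) (m : ℕ)
    (s : τ →₀ ℕ) (r : k) :
    aeval (fun v => a' v ⊗ₜ[k] AdjoinRoot.root (Polynomial.X ^ (m + 1) : Polynomial k) :
      τ → P ⊗[k] Tr k m) (monomial s r) =
      aeval a' (monomial s r) ⊗ₜ[k]
        ((AdjoinRoot.root (Polynomial.X ^ (m + 1) : Polynomial k)) ^ s.degree) := by
  rw [aeval_monomial, aeval_monomial]
  have h1 : (s.prod fun i k_1 => (a' i ⊗ₜ[k] AdjoinRoot.root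
      (Polynomial.X ^ (m + 1) : Polynomial k) : P ⊗[k] Tr k m) ^ k_1) =
      (s.prod fun i k_1 => a' i ^ k_1) ⊗ₜ[k]
        ((AdjoinRoot.root (Polynomial.X ^ (m + 1) : Polynomial k)) ^ s.degree) := by
    classical
    unfold Finsupp.prod Finsupp.degree
    change _ = _ ⊗ₜ[k] (_ ^ (∑ i ∈ s.support, s i))
    rw [← Finset.prod_pow_eq_pow_sum]
    induction s.support using Finset.induction_on with
    | empty => simp [Algebra.TensorProduct.one_def]
    | insert i S hi ih =>
      rw [Finset.prod_insert hi, Finset.prod_insert hi, Finset.prod_insert hi, ih]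
      beta_reduce
      rw [Algebra.TensorProduct.tmul_pow, Algebra.TensorProduct.tmul_mul_tmul]
  rw [h1, Algebra.TensorProduct.algebraMap_apply, Algebra.TensorProduct.tmul_mul_tmul, one_mul]

/-- the components of the values in `P ⊗ k[t] / (t ^ (m + 1))` -/
theorem component_tr {τ P : Type} [CommRing P] [Algebra k P] (a' : τ → P) {m e : ℕ} (he : e ≤ m)
    (M : MvPolynomial τ k)
    (hM : aeval (fun v => a' v ⊗ₜ[k] AdjoinRoot.root (Polynomial.X ^ (m + 1) : Polynomial k) :
      τ → P ⊗[k] Tr k m) M = 0) : aeval a' (homogeneousComponent e M) = 0 := by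
  obtain ⟨f, hf⟩ := exists_cf (k := k) m e he
  let T : P ⊗[k] Tr k m →ₗ[k] P := (TensorProduct.rid k P).toLinearMap ∘ₗ LinearMap.lTensor P f
  have hT : ∀ x (y : Tr k m), T (x ⊗ₜ[k] y) = f y • x := by
    intro x y
    simp [T]
  have key : ∀ M : MvPolynomial τ k, T (aeval (fun v => a' v ⊗ₜ[k] AdjoinRoot.root
      (Polynomial.X ^ (m + 1) : Polynomial k) : τ → P ⊗[k] Tr k m) M) =
      aeval a' (homogeneousComponent e M) := by
    intro M
    induction M using MvPolynomial.induction_on' with
    | monomial s r =>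
      rw [aeval_tmul_root, homogeneousComponent_monomial', hT, hf]
      by_cases h : s.degree = e
      · rw [if_pos h, if_pos h, one_smul]
      · rw [if_neg h, if_neg h, zero_smul, map_zero]
    | add p q hp hq =>
      rw [map_add, map_add, map_add, map_add, hp, hq]
  rw [← key, hM, map_zero]

variable [IsAlgClosed k]

/-- **Truncated comparison gives a subquotient.** -/
theorem sub_trunc {τ A P : Type} [CommRing A] [Algebra k A] [CommRing P] [Algebra k P]
    {a : τ → A} {a' : τ → P} (hgen : Algebra.adjoin k (Set.range a) = ⊤) {m : ℕ}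
    (hnil : Ideal.span (Set.range a) ^ (m + 1) = ⊥)
    (h : ∀ e ≤ m, ∀ M : MvPolynomial τ k, M.IsHomogeneous e → aeval a' M = 0 → aeval a M = 0) :
    IsSubquotient k A (P ⊗[k] Tr k m) := by
  refine isSubquotient_of_ker (aeval a) ?_ (aeval fun v => a' v ⊗ₜ[k] AdjoinRoot.root
      (Polynomial.X ^ (m + 1) : Polynomial k)) fun M hM => ?_
  · rw [← AlgHom.range_eq_top, ← Algebra.adjoin_range_eq_range_aeval]
    exact hgen
  · refine aeval_eq_sum a hnil M fun e he => ?_
    exact h e he _ (homogeneousComponent_isHomogeneous e M) (component_tr a' he M hM)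

theorem inLines_tr (m : ℕ) : InLines k (Tr k m) 1 := by
  refine ⟨Unit, inferInstance, fun _ => AdjoinRoot.root _, fun _ _ => 1, fun _ => ⟨m + 1, root_tr m⟩,
    ?_, fun M hM => ?_⟩
  · rw [Set.range_const]
    exact AdjoinRoot.adjoinRoot_eq_top
  · have h1 : M = ∑ e ∈ Finset.range (M.totalDegree + 1), homogeneousComponent e M :=
      (sum_homogeneousComponent M).symm
    rw [h1, map_sum]
    refine Finset.sum_eq_zero fun e _ => ?_
    have h2 : homogeneousComponent e M =
        monomial (Finsupp.single () e) (coeff (Finsupp.single () e) M) := by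
      ext s
      rw [coeff_homogeneousComponent, coeff_monomial]
      have hs : s = Finsupp.single () (s ()) := by
        ext u
        simp
      have hsd : s.degree = s () := by
        conv_lhs => rw [hs]
        rw [Finsupp.degree_single]
      by_cases h : s () = e
      · rw [hsd, if_pos h]
        rw [hs, h, if_pos rfl]
      · rw [hsd, if_neg h, if_neg]
        intro h3
        rw [← h3] at h
        simp at h
    have h3 := hM 0 e
    rw [h2, eval_monomial] at h3
    simp only [one_pow] at h3
    rw [Finsupp.prod] at h3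
    simp only [Finset.prod_const_one, mul_one] at h3
    rw [h2, h3, monomial_zero, map_zero]

theorem fam_tr (m : ℕ) : Fam k (Tr k m) (m + 2) := by
  have h1 : Ideal.span (Set.range fun _ : Unit =>
      AdjoinRoot.root (Polynomial.X ^ (m + 1) : Polynomial k)) ^ (m + 1) = ⊥ := by
    rw [Set.range_const, Ideal.span_singleton_pow, root_tr, Ideal.span_singleton_eq_bot]
  have h2 : Algebra.adjoin k (Set.range fun _ : Unit =>
      AdjoinRoot.root (Polynomial.X ^ (m + 1) : Polynomial k)) = ⊤ := by
    rw [Set.range_const]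
    exact AdjoinRoot.adjoinRoot_eq_top
  have h3 := fam_of_lines (inLines_tr (k := k) m) (m := m) fun I _ hI => by
    rw [eq_bot_iff, ← h1]
    exact Ideal.pow_right_mono (fun x hx => mem_span_of_nilpotent _ h2 h1 x (hI x hx)) _
  rwa [one_mul] at h3

theorem fam_pow {B : Type} [CommRing B] [Algebra k B] {D : ℕ} (h : Fam k B D) (n : ℕ) :
    Fam k (Pow k B n) (D ^ n) := by
  induction n with
  | zero =>
    rw [pow_zero]
    refine fam_self.of_surjective (Algebra.ofId k (Pow k B 0)) ?_
    rw [← AlgHom.range_eq_top]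
    exact pow_eq_top _ fun i => i.elim0
  | succ n ih =>
    rw [pow_succ]
    refine Fam.join ih h
      (powLift fun i => sg k B (Fin.castAdd 1 i)) (sg k B (Fin.natAdd n 0)) ?_
    refine pow_eq_top _ fun i x => ?_
    refine Fin.addCases (fun i => ?_) (fun i => ?_) i
    · exact (le_sup_left : (powLift fun i => sg k B (Fin.castAdd 1 i)).range ≤ _)
        ⟨sg k B i x, powLift_single _ i x⟩
    · rw [Subsingleton.elim i 0]
      exact (le_sup_right : (sg k B (Fin.natAdd n 0)).range ≤ _) ⟨x, rfl⟩

/-- growth rate of a tensor product with a scheme contained in a smoothable one -/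
theorem rate_tensor_le (P S : Type) [CommRing P] [Algebra k P] [Module.Finite k P] [Nontrivial P]
    [CommRing S] [Algebra k S] [Module.Finite k S] [Nontrivial (P ⊗[k] S)] {D : ℕ} (hD : 1 ≤ D)
    (hS : Fam k S D) : rate k (P ⊗[k] S) ≤ D * rate k P := by
  have hr := one_le_rate (k := k) P
  have hD' : (1 : ℝ) ≤ D := by exact_mod_cast hD
  have key : ∀ η : ℝ, 0 < η → rate k (P ⊗[k] S) ≤ D * (rate k P + η) := by
    intro η hη
    obtain ⟨C, hC, hG⟩ := growth_of_rate (k := k) P η hη
    refine rate_le_of_growth (by positivity) ⟨C, hC, fun n => ?_⟩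
    obtain ⟨E, hE1, hE⟩ := hG n
    refine ⟨E * D ^ n, ?_, ?_⟩
    · push_cast
      rw [mul_pow]
      calc (E : ℝ) * (D : ℝ) ^ n ≤ (C * (rate k P + η) ^ n) * (D : ℝ) ^ n :=
            mul_le_mul_of_nonneg_right hE1 (by positivity)
        _ = C * ((D : ℝ) ^ n * (rate k P + η) ^ n) := by ring
    · refine Fam.join hE (fam_pow hS n)
        (powLift fun i => (sg k (P ⊗[k] S) i).comp Algebra.TensorProduct.includeLeft)
        (powLift fun i => (sg k (P ⊗[k] S) i).comp Algebra.TensorProduct.includeRight) ?_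
      refine pow_eq_top _ fun i x => ?_
      induction x using TensorProduct.induction_on with
      | zero => rw [map_zero]; exact Subalgebra.zero_mem _
      | tmul x y =>
        have h1 : (x ⊗ₜ[k] y : P ⊗[k] S) = (x ⊗ₜ 1) * (1 ⊗ₜ y) := by
          rw [Algebra.TensorProduct.tmul_mul_tmul, mul_one, one_mul]
        rw [h1, map_mul]
        refine Subalgebra.mul_mem _ ?_ ?_
        · refine (le_sup_left : (powLift fun i => (sg k (P ⊗[k] S) i).comp
            Algebra.TensorProduct.includeLeft).range ≤ _) ⟨sg k P i x, ?_⟩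
          exact powLift_single _ i x
        · refine (le_sup_right : (powLift fun i => (sg k (P ⊗[k] S) i).comp
            Algebra.TensorProduct.includeRight).range ≤ _) ⟨sg k S i y, ?_⟩
          exact powLift_single _ i y
      | add x y hx hy => rw [map_add]; exact Subalgebra.add_mem _ hx hy
  refine le_of_forall_pos_le_add fun ε hε => ?_
  refine (key (ε / D) (by positivity)).trans (le_of_eq ?_)
  rw [mul_add, mul_div_cancel₀ _ (by positivity : (D : ℝ) ≠ 0)]

/-- growth rate of a product with many factors -/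
theorem rate_pi_le (r : ℝ) (K : ℕ) : ∀ (Y : Fin (K + 1) → Type) [∀ i, CommRing (Y i)]
    [∀ i, Algebra k (Y i)] [∀ i, Module.Finite k (Y i)] [∀ i, Nontrivial (Y i)],
    (∀ i, rate k (Y i) ≤ r) → rate k (∀ i, Y i) ≤ (K + 1) * r := by
  induction K with
  | zero =>
    intro Y _ _ _ _ h
    have h1 : Function.Injective (Pi.evalAlgHom k Y 0) := by
      intro x y hxy
      funext i
      have hi : i = 0 := Fin.ext (by omega)
      rw [hi]
      exact hxy
    have h2 := rate_le (IsSubquotient.of_injective (Pi.evalAlgHom k Y 0) h1)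
    refine (h2.trans (h 0)).trans (le_of_eq ?_)
    norm_num
  | succ K ih =>
    intro Y _ _ _ _ h
    have h1 := ih (fun i => Y i.succ) fun i => h i.succ
    have h2 : rate k (∀ i, Y i) = rate k (Y 0 × ∀ i : Fin (K + 1), Y i.succ) :=
      rate_congr (finSplit' k (K + 1) Y)
    rw [h2]
    refine (rate_prod_le (Y 0) (∀ i : Fin (K + 1), Y i.succ)).trans ?_
    have h3 := h 0
    push_cast
    linarith

end Pool.Agent.N86.SQ
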