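import Pool.Agent.N86.SQ.Spz

/-!
# Semicontinuity of the growth rate
-/

set_option autoImplicit false
set_option linter.unusedSectionVars false

namespace Pool.Agent.N86.SQ

open scoped TensorProduct PowerSeries Topology
open Pool.Agent.H826R3.SM Pool.Agent.TH671.DU
open MvPolynomial Filter

theorem limit_lemma (y x : ℝ) (hy : 0 ≤ y) (hx : 0 ≤ x) (c h e : ℕ)
    (H : ∀ n : ℕ, y ^ (n + 1) ≤ x ^ (n + 1) *
      ((((c * (n + 1)) * ((n + 1) * h) + 1) * (c * (n + 1) + 1) ^ e * (c * (n + 1) + 2) : ℕ) : ℝ)) :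
    y ≤ x := by
  set K : ℝ := ((c : ℝ) * h + 1) * (c + 1) ^ e * (c + 2) with hK
  have hc0 : (0 : ℝ) ≤ c := Nat.cast_nonneg _
  have hh0 : (0 : ℝ) ≤ h := Nat.cast_nonneg _
  have ht := Pool.Agent.TH671.SH.tendsto_root' (e + 3) K (by positivity) x hx
  refine ge_of_tendsto' ht fun n => ?_
  have h1 : y ^ (n + 1) ≤ K * ((n : ℝ) + 1) ^ (e + 3) * x ^ (n + 1) := by
    refine (H n).trans ?_
    rw [mul_comm]
    refine mul_le_mul_of_nonneg_right ?_ (by positivity)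
    push_cast
    have hn : (1 : ℝ) ≤ (n : ℝ) + 1 := by
      have : (0 : ℝ) ≤ n := Nat.cast_nonneg _
      linarith
    set N : ℝ := (n : ℝ) + 1 with hN
    have hp1 : (c : ℝ) * N * (N * h) + 1 ≤ (c * h + 1) * N ^ 2 := by
      have : (1 : ℝ) ≤ N ^ 2 := one_le_pow₀ hn
      nlinarith
    have hp2 : ((c : ℝ) * N + 1) ^ e ≤ (c + 1) ^ e * N ^ e := by
      rw [← mul_pow]
      refine pow_le_pow_left₀ (by positivity) ?_ _
      nlinarith
    have hp3 : (c : ℝ) * N + 2 ≤ (c + 2) * N := by nlinarith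
    calc ((c : ℝ) * N * (N * h) + 1) * (c * N + 1) ^ e * (c * N + 2)
        ≤ ((c * h + 1) * N ^ 2) * ((c + 1) ^ e * N ^ e) * ((c + 2) * N) :=
          mul_le_mul (mul_le_mul hp1 hp2 (by positivity) (by positivity)) hp3 (by positivity)
            (by positivity)
      _ = K * N ^ (e + 3) := by rw [hK, pow_add]; ring
  have h6 := Real.rpow_le_rpow (by positivity) h1 (show (0 : ℝ) ≤ 1 / ((n : ℝ) + 1) by
    positivity)
  refine le_trans (le_of_eq ?_) h6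
  rw [← Real.rpow_natCast, ← Real.rpow_mul hy]
  push_cast
  rw [mul_one_div, div_self (by positivity), Real.rpow_one]

variable {k : Type} [Field k] [IsAlgClosed k]

theorem inLines_of_linesUpTo {A σ : Type} [CommRing A] [Algebra k A] [Finite σ] {a : σ → A}
    {m W : ℕ} (hgen : Algebra.adjoin k (Set.range a) = ⊤)
    (hnil : Ideal.span (Set.range a) ^ (m + 1) = ⊥) (h : LinesUpTo k a m W) : InLines k A W := by
  obtain ⟨p, hp⟩ := h
  refine ⟨σ, inferInstance, a, p, isNilpotent_gen a hnil, hgen, fun M hM => ?_⟩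
  refine aeval_eq_sum a hnil M fun e he => ?_
  exact hp e he _ (homogeneousComponent_isHomogeneous e M) fun w => hM w e

theorem rate_le_of_joint {C₀ τ : Type} [CommRing C₀] [Algebra k C₀] [Module.Finite k C₀]
    [Nontrivial C₀] [Finite τ] {c : τ → C₀} (hgen : Algebra.adjoin k (Set.range c) = ⊤) {m : ℕ}
    (hnil : Ideal.span (Set.range c) ^ (m + 1) = ⊥) {O : Type} [CommRing O] [Algebra k⟦X⟧ O]
    [Module.Finite k⟦X⟧ O] [Module.Free k⟦X⟧ O] [FaithfulSMul k⟦X⟧ O] {T : Type} [Fintype T]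
    {q : T → τ → O} {h : ℕ}
    (H : JointA k O T (fun j => (Module.finBasis k C₀).coord j ∘ₗ
      (aeval c : MvPolynomial τ k →ₐ[k] C₀).toLinearMap) q h) :
    rate k C₀ ≤ Fintype.card T := by
  have : Infinite k := IsAlgClosed.instInfinite
  have hr := one_le_rate (k := k) C₀
  refine limit_lemma _ _ (by linarith) (Nat.cast_nonneg _) (m + 1) h (Module.finrank k⟦X⟧ O)
    fun n => ?_
  have h1 := linesUpTo_of_joint H (n + 1) ((m + 1) * (n + 1))
  have h2 := inLines_of_linesUpTo (adjoin_pow hgen (n + 1)) (nil_pow (k := k) c m hnil (n + 1)) h1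
  have h3 := fam_pow_of_lines hgen hnil h2
  have h4 := TH671.DU.mdeg_le h3
  refine (rate_pow_le C₀ (n + 1)).trans ?_
  have h5 : ((mdeg k (Pow k C₀ (n + 1)) : ℕ) : ℝ) ≤
      ((Fintype.card T ^ (n + 1) * (((m + 1) * (n + 1) * ((n + 1) * h) + 1) *
        ((m + 1) * (n + 1) + 1) ^ Module.finrank k⟦X⟧ O) * ((m + 1) * (n + 1) + 2) : ℕ) : ℝ) := by
    exact_mod_cast h4
  refine h5.trans (le_of_eq ?_)
  push_cast
  ring

/-- **The growth rate does not increase under specialization.** -/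
theorem rate_spz {A₀ A₁ σ : Type} [CommRing A₀] [Algebra k A₀] [Module.Finite k A₀]
    [Nontrivial A₀] [CommRing A₁] [Algebra (LL k) A₁] [Module.Finite (LL k) A₁] [Nontrivial A₁]
    [Finite σ] {a : σ → A₀} {b : σ → A₁} (hgen : Algebra.adjoin k (Set.range a) = ⊤) {e : ℕ}
    (hnil : Ideal.span (Set.range a) ^ (e + 1) = ⊥) (hS : Spz k a b) :
    rate k A₀ ≤ rate (LL k) A₁ := by
  have hr := one_le_rate (k := k) A₀
  have hiK : Infinite (LL k) := IsAlgClosed.instInfinite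
  rw [rate_eq A₁]
  refine le_irate _ _ (by linarith) fun N => ?_
  rw [← rate_pow' A₀ (N + 1)]
  have hnt : Nontrivial (Pow k A₀ (N + 1)) := nontrivial_pow A₀ (N + 1)
  have hr' := one_le_rate (k := k) (Pow k A₀ (N + 1))
  have hS' := hS.pow (N + 1)
  have hgen' := adjoin_pow hgen (N + 1)
  have hnil' := nil_pow (k := k) a e hnil (N + 1)
  set e' : ℕ := (e + 1) * (N + 1) with he'
  obtain ⟨D', hD'⟩ := exists_fam (k := LL k) (Pow (LL k) A₁ (N + 1))
  have hD := mdeg_spec hD'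
  set D := mdeg (LL k) (Pow (LL k) A₁ (N + 1)) with hDdef
  obtain ⟨O, _, _, _, _, _, T, _, h, q, hT, hJ⟩ := joint_of_fam hD
    (aeval fun v : Fin (N + 1) × σ => sg (LL k) A₁ v.1 (b v.2)) fun j =>
      (Module.finBasis (LL k) (Pow (LL k) A₁ (N + 1))).coord j
  have hJ' := hJ.jointA
  refine limit_lemma _ _ (by linarith) (Nat.cast_nonneg _) (e' + 1) h
    (Module.finrank (LL k)⟦X⟧ O) fun n => ?_
  rw [← rate_pow' (Pow k A₀ (N + 1)) (n + 1)]
  have hnt2 : Nontrivial (Pow k (Pow k A₀ (N + 1)) (n + 1)) := nontrivial_pow _ (n + 1)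
  have hnil2 := nil_pow (k := k) _ e' hnil' (n + 1)
  set m : ℕ := (e' + 1) * (n + 1) with hm
  have hL := linesUpTo_of_joint hJ' (n + 1) m
  obtain ⟨M, hM1, hM1', hM2⟩ : ∃ M : ℕ, m < M ∧ M ≤ m + 2 ∧ (M : k) ≠ 0 := by
    by_cases h : ((m + 1 : ℕ) : k) = 0
    · refine ⟨m + 2, by omega, le_rfl, ?_⟩
      have : ((m + 2 : ℕ) : k) = ((m + 1 : ℕ) : k) + 1 := by push_cast; ring
      rw [this, h, zero_add]
      exact one_ne_zero
    · exact ⟨m + 1, by omega, by omega, h⟩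
  have hNz : NeZero (M : k) := ⟨hM2⟩
  obtain ⟨ζ, hζ⟩ := HasEnoughRootsOfUnity.exists_primitiveRoot k M
  obtain ⟨O', _, _, _, _, _, h', q', hJ2⟩ := joint_of_lines (hS'.pow (n + 1)) hL hnil2 hζ hM2 hM1
  have hfin := rate_le_of_joint (adjoin_pow hgen' (n + 1)) hnil2 hJ2
  refine hfin.trans ?_
  rw [Fintype.card_prod, Fintype.card_fin, Fintype.card_fin]
  have h5 : Fintype.card T ^ (n + 1) * ((m * ((n + 1) * h) + 1) *
      (m + 1) ^ Module.finrank (LL k)⟦X⟧ O) * M ≤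
      D ^ (n + 1) * ((m * ((n + 1) * h) + 1) * (m + 1) ^ Module.finrank (LL k)⟦X⟧ O * (m + 2)) := by
    calc _ ≤ D ^ (n + 1) * ((m * ((n + 1) * h) + 1) *
      (m + 1) ^ Module.finrank (LL k)⟦X⟧ O) * (m + 2) := by gcongr
      _ = _ := by ring
  refine (Nat.cast_le (α := ℝ).2 h5).trans (le_of_eq ?_)
  push_cast
  ring

/-- the functionals of a family -/
theorem spz_of_family {𝒜 A₀ σ : Type} [CommRing 𝒜] [Algebra k⟦X⟧ 𝒜] [Module.Finite k⟦X⟧ 𝒜]
    [Module.Free k⟦X⟧ 𝒜] [CommRing A₀] [Algebra k A₀] (π : 𝒜 →+* A₀)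
    (hπC : ∀ c : k⟦X⟧, π (algebraMap k⟦X⟧ 𝒜 c) = algebraMap k A₀ (PowerSeries.constantCoeff c))
    (x : σ → 𝒜) : Spz k (fun v => π (x v))
      (fun v => ((1 : LL k) ⊗ₜ[k⟦X⟧] x v : LL k ⊗[k⟦X⟧] 𝒜)) := by
  intro φ
  have hπ : ∀ (r : k⟦X⟧) (x : 𝒜), π (r • x) = PowerSeries.constantCoeff r • π x := by
    intro r x
    rw [Algebra.smul_def, map_mul, hπC, ← Algebra.smul_def]
  obtain ⟨Ψ, hΨ⟩ := exists_lift_functional π hπ φ
  refine ⟨(TensorProduct.AlgebraTensorModule.rid k⟦X⟧ (LL k) (LL k)).toLinearMap ∘ₗ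
    LinearMap.baseChange (LL k) Ψ, fun F => ⟨Ψ (eval₂ (iO k 𝒜) x F), ?_, ?_⟩⟩
  · have h1 : aeval (fun v => ((1 : LL k) ⊗ₜ[k⟦X⟧] x v : LL k ⊗[k⟦X⟧] 𝒜))
        (map (iO k (LL k)) F) = (1 : LL k) ⊗ₜ[k⟦X⟧] eval₂ (iO k 𝒜) x F := by
      have h2 : (aeval (fun v => ((1 : LL k) ⊗ₜ[k⟦X⟧] x v : LL k ⊗[k⟦X⟧] 𝒜)) :
          MvPolynomial σ (LL k) →ₐ[LL k] LL k ⊗[k⟦X⟧] 𝒜).toRingHom.comp (map (iO k (LL k))) =
          (Algebra.TensorProduct.includeRight (R := k⟦X⟧) (A := LL k) (B := 𝒜)).toRingHom.comp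
            (eval₂Hom (iO k 𝒜) x) := by
        refine MvPolynomial.ringHom_ext (fun r => ?_) fun v => ?_
        · change aeval _ (map (iO k (LL k)) (C r)) = (1 : LL k) ⊗ₜ[k⟦X⟧] eval₂ (iO k 𝒜) x (C r)
          rw [map_C, aeval_C, eval₂_C]
          change (algebraMap k⟦X⟧ (LL k) (PowerSeries.C r)) ⊗ₜ[k⟦X⟧] (1 : 𝒜) =
            (1 : LL k) ⊗ₜ[k⟦X⟧] algebraMap k⟦X⟧ 𝒜 (PowerSeries.C r)
          rw [Algebra.algebraMap_eq_smul_one, Algebra.algebraMap_eq_smul_one,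
            TensorProduct.smul_tmul]
        · change aeval _ (map (iO k (LL k)) (X v)) = (1 : LL k) ⊗ₜ[k⟦X⟧] eval₂ (iO k 𝒜) x (X v)
          rw [map_X, aeval_X, eval₂_X]
      exact congrArg (fun f => f F) h2
    rw [h1, LinearMap.comp_apply, LinearMap.baseChange_tmul]
    change TensorProduct.AlgebraTensorModule.rid k⟦X⟧ (LL k) (LL k) _ = _
    rw [TensorProduct.AlgebraTensorModule.rid_tmul, Algebra.algebraMap_eq_smul_one]
  · rw [hΨ]
    have h1 : π.comp (eval₂Hom (iO k 𝒜) x) =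
        (aeval (fun v => π (x v)) : MvPolynomial σ k →ₐ[k] A₀).toRingHom := by
      refine MvPolynomial.ringHom_ext (fun r => ?_) fun v => ?_
      · change π (eval₂ (iO k 𝒜) x (C r)) = aeval _ (C r)
        rw [eval₂_C, aeval_C]
        change π (algebraMap k⟦X⟧ 𝒜 (PowerSeries.C r)) = _
        rw [hπC, PowerSeries.constantCoeff_C]
      · change π (eval₂ (iO k 𝒜) x (X v)) = aeval _ (X v)
        rw [eval₂_X, aeval_X]
    exact congrArg φ (congrArg (fun f => f F) h1)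

/-- **Semicontinuity of the growth rate.** -/
theorem rate_special_le {𝒜 A₀ : Type} [CommRing 𝒜] [Algebra k⟦X⟧ 𝒜] [Module.Finite k⟦X⟧ 𝒜]
    [Module.Free k⟦X⟧ 𝒜] [CommRing A₀] [Algebra k A₀] [IsLocalRing A₀] (π : 𝒜 →+* A₀)
    (hπs : Function.Surjective π)
    (hπC : ∀ c : k⟦X⟧, π (algebraMap k⟦X⟧ 𝒜 c) = algebraMap k A₀ (PowerSeries.constantCoeff c)) :
    ∃ _ : Nontrivial (LL k ⊗[k⟦X⟧] 𝒜), rate k A₀ ≤ rate (LL k) (LL k ⊗[k⟦X⟧] 𝒜) := by
  classical
  have hfin : Module.Finite k A₀ := by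
    let b := Module.finBasis k⟦X⟧ 𝒜
    refine ⟨⟨Finset.univ.image fun i => π (b i), ?_⟩⟩
    rw [eq_top_iff]
    rintro y -
    obtain ⟨x, rfl⟩ := hπs y
    rw [← b.sum_repr x, map_sum]
    refine Submodule.sum_mem _ fun i _ => ?_
    rw [Algebra.smul_def, map_mul, hπC, ← Algebra.smul_def]
    refine Submodule.smul_mem _ _ (Submodule.subset_span ?_)
    simp
  have hnt𝒜 : Nontrivial 𝒜 := ⟨⟨0, 1, fun h => by
    have := congrArg π h
    rw [map_zero, map_one] at this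
    exact zero_ne_one this⟩⟩
  have hnt : Nontrivial (LL k ⊗[k⟦X⟧] 𝒜) := by
    refine Module.nontrivial_of_finrank_pos (R := LL k) ?_
    rw [Module.finrank_baseChange]
    exact Module.finrank_pos
  refine ⟨hnt, ?_⟩
  obtain ⟨-, l, a, e, hgen, hnil⟩ := local_gens (k := k) A₀
  choose x hx using fun v => hπs (a v)
  have h1 := spz_of_family π hπC x
  have h2 : (fun v => π (x v)) = a := funext hx
  rw [h2] at h1
  exact rate_spz hgen hnil h1

end Pool.Agent.N86.SQ
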