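import Pool.Agent.N86.SQ.Clo2
import Pool.Agent.N86.SQ.Semi

/-!
# Zariski closedness and well-ordering of the growth rates
-/

set_option autoImplicit false
set_option linter.unusedSectionVars false

namespace Pool.Agent.N86.SQ

open scoped TensorProduct Topology
open Pool.Agent.H826R3.SM Pool.Agent.TH671.DU
open MvPolynomial

variable {k : Type} [Field k] [IsAlgClosed k]

/-- **The growth rate at a point of the Zariski closure of a set of algebras.** -/
theorem closure_rate {d : ℕ} {Y : Type} {E : Y → Type} [∀ y, CommRing (E y)]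
    [∀ y, Algebra k (E y)] (c : ∀ y, Module.Basis (Fin d) k (E y)) (y₀ : Y) [IsLocalRing (E y₀)]
    {ZI : Type} (z : ZI → Y)
    (hcl : ∀ Q : MvPolynomial (PIdx d) k, (∀ i, eval (par (c (z i))) Q = 0) →
      eval (par (c y₀)) Q = 0)
    {x : ℝ} (hx : ∀ i, rate k (E (z i)) ≤ x) : rate k (E y₀) ≤ x := by
  classical
  have hfin : ∀ y, Module.Finite k (E y) := fun y => Module.Finite.of_basis (c y)
  have hd : 0 < d := by
    rcases Nat.eq_zero_or_pos d with rfl | h
    · exfalso
      have h1 : Module.finrank k (E y₀) = 0 := by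
        rw [Module.finrank_eq_card_basis (c y₀), Fintype.card_fin]
      have h2 : 0 < Module.finrank k (E y₀) := Module.finrank_pos
      omega
    · exact h
  have hnt : ∀ y, Nontrivial (E y) := fun y => Module.nontrivial_of_finrank_pos (R := k) (by
    rw [Module.finrank_eq_card_basis (c y), Fintype.card_fin]
    exact hd)
  -- the closure is not empty
  have hne : ∃ i : ZI, True := by
    by_contra hcon
    push Not at hcon
    have := hcl 1 fun i => (hcon i).elim
    rw [map_one] at this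
    exact one_ne_zero this
  obtain ⟨i₁, -⟩ := hne
  have hx1 : 1 ≤ x := (one_le_rate (k := k) (E (z i₁))).trans (hx i₁)
  obtain ⟨-, l, a, e, hgen, hnil⟩ := local_gens (k := k) (E y₀)
  let α : Fin l → Fin d → k := fun v i => (c y₀).repr (a v) i
  have hα : ∀ v, celt (c := c) (α v) y₀ = a v := fun v => (c y₀).sum_repr (a v)
  have hr := one_le_rate (k := k) (E y₀)
  refine limit_lemma _ _ (by linarith) (by linarith) (e + 2) 0 (Fintype.card (PIdx d))
    fun n => ?_
  rw [← rate_pow' (E y₀) (n + 1)]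
  have hntP : ∀ y, Nontrivial (Pow k (E y) (n + 1)) := fun y => nontrivial_pow (E y) (n + 1)
  set m : ℕ := (e + 1) * (n + 1) with hm
  have hL : (n + 1) + m = (e + 2) * (n + 1) := by rw [hm]; ring
  obtain ⟨K, zz, hK, htest⟩ := exists_finite_test (fun i => par (c (z i))) (par (c y₀)) hcl
    ((n + 1) + m)
  obtain ⟨K', rfl⟩ : ∃ K', K = K' + 1 := by
    rcases K with - | K'
    · exfalso
      have := htest 1 (by rw [totalDegree_one]; exact Nat.zero_le _) fun l => l.elim0
      rw [map_one] at this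
      exact one_ne_zero this
    · exact ⟨K', rfl⟩
  let P : Type := ∀ j : Fin (K' + 1), Pow k (E (z (zz j))) (n + 1)
  let a' : Fin (n + 1) × Fin l → P := fun v j =>
    sg k (E (z (zz j))) v.1 (celt (c := c) (α v.2) (z (zz j)))
  have hsub : IsSubquotient k (Pow k (E y₀) (n + 1)) (P ⊗[k] Tr k m) := by
    refine sub_trunc (adjoin_pow hgen (n + 1)) (nil_pow (k := k) a e hnil (n + 1))
      (a' := a') fun e' he' M hM hM0 => ?_
    have h1 : ∀ j, aeval (fun v : Fin (n + 1) × Fin l =>
        sg k (E (z (zz j))) v.1 (celt (c := c) (α v.2) (z (zz j)))) M = 0 := by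
      intro j
      have h2 : aeval (fun v : Fin (n + 1) × Fin l =>
        sg k (E (z (zz j))) v.1 (celt (c := c) (α v.2) (z (zz j)))) M =
          Pi.evalAlgHom k (fun j : Fin (K' + 1) => Pow k (E (z (zz j))) (n + 1)) j
            (aeval a' M) := by
        rw [MvPolynomial.comp_aeval_apply]
        rfl
      rw [h2, hM0, map_zero]
    have h3 : ∀ v : Fin (n + 1) × Fin l, sg k (E y₀) v.1 (a v.2) =
        sg k (E y₀) v.1 (celt (c := c) (α v.2) y₀) := fun v => by rw [hα]
    simp only [h3]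
    let B := Basis.piTensorProduct (fun _ : Fin (n + 1) => c y₀)
    apply B.repr.injective
    rw [map_zero]
    ext J
    obtain ⟨Q, hQ, hQ1⟩ := isPoly_aeval (c := c) (N := n + 1) α hM J
    rw [Finsupp.zero_apply]
    refine (hQ1 y₀).trans (htest Q (hQ.trans (by omega)) fun j => ?_)
    rw [← hQ1 (z (zz j))]
    beta_reduce
    rw [h1 j, map_zero, Finsupp.zero_apply]
  have hntT : Nontrivial (P ⊗[k] Tr k m) := by
    refine Module.nontrivial_of_finrank_pos (R := k) ?_
    rw [Module.finrank_tensorProduct]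
    have hntTr : Nontrivial (Tr k m) := by
      obtain ⟨f, hf⟩ := exists_cf (k := k) m 0 (Nat.zero_le _)
      refine ⟨⟨0, 1, fun h => ?_⟩⟩
      have h2 := hf 0
      rw [pow_zero, ← h, map_zero, if_pos rfl] at h2
      exact zero_ne_one h2
    exact Nat.mul_pos Module.finrank_pos Module.finrank_pos
  have h4 : rate k (Pow k (E y₀) (n + 1)) ≤ rate k (P ⊗[k] Tr k m) := rate_le hsub
  have h5 : rate k (P ⊗[k] Tr k m) ≤ ((m + 2 : ℕ) : ℝ) * rate k P :=
    rate_tensor_le P (Tr k m) (by omega) (fam_tr m)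
  have h6 : rate k P ≤ ((K' : ℝ) + 1) * x ^ (n + 1) := by
    refine rate_pi_le (x ^ (n + 1)) K' (fun j => Pow k (E (z (zz j))) (n + 1)) fun j => ?_
    rw [rate_pow' (E (z (zz j))) (n + 1)]
    refine pow_le_pow_left₀ ?_ (hx (zz j)) _
    linarith [one_le_rate (k := k) (E (z (zz j)))]
  have hxn : 0 ≤ x ^ (n + 1) := by positivity
  have h7 : ((K' : ℝ) + 1) ≤ (((e + 2) * (n + 1) + 1 : ℕ) : ℝ) ^ Fintype.card (PIdx d) := by
    rw [← hL]
    exact_mod_cast hK
  have h8 : ((m + 2 : ℕ) : ℝ) ≤ (((e + 2) * (n + 1) + 2 : ℕ) : ℝ) := by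
    rw [← hL]
    exact_mod_cast (by omega : m + 2 ≤ n + 1 + m + 2)
  calc rate k (Pow k (E y₀) (n + 1)) ≤ ((m + 2 : ℕ) : ℝ) * (((K' : ℝ) + 1) * x ^ (n + 1)) :=
        (h4.trans h5).trans (mul_le_mul_of_nonneg_left h6 (Nat.cast_nonneg _))
    _ ≤ (((e + 2) * (n + 1) + 2 : ℕ) : ℝ) * ((((e + 2) * (n + 1) + 1 : ℕ) : ℝ) ^
          Fintype.card (PIdx d) * x ^ (n + 1)) :=
        mul_le_mul h8 (mul_le_mul_of_nonneg_right h7 hxn) (by positivity) (by positivity)
    _ = _ := by
        push_cast
        ring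

/-- the growth rates of the local schemes of degree `d` -/
def growthRates (k : Type) [Field k] (d : ℕ) : Set ℝ :=
  {x | ∃ (A : Type) (_ : CommRing A) (_ : Algebra k A), Module.Finite k A ∧ IsLocalRing A ∧
    Module.finrank k A = d ∧ rate k A = x}

/-- **The growth rates are well-ordered.** -/
theorem growthRates_isWF (d : ℕ) : (growthRates k d).IsWF := by
  rw [Set.isWF_iff_no_descending_seq]
  intro f hf hmem
  choose A cA aA fA lA hd hr using hmem
  letI : ∀ n, CommRing (A n) := cA
  letI : ∀ n, Algebra k (A n) := aA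
  have : ∀ n, Module.Finite k (A n) := fA
  have : ∀ n, IsLocalRing (A n) := lA
  let c : ∀ n, Module.Basis (Fin d) k (A n) := fun n => Module.finBasisOfFinrankEq k (A n) (hd n)
  -- the ideals of the tails
  let I : ℕ → Ideal (MvPolynomial (PIdx d) k) := fun i =>
    ⨅ j : {j : ℕ // i ≤ j}, RingHom.ker (eval (par (c j)))
  have hI : ∀ i Q, Q ∈ I i ↔ ∀ j, i ≤ j → eval (par (c j)) Q = 0 := by
    intro i Q
    change Q ∈ (⨅ j : {j : ℕ // i ≤ j}, RingHom.ker (eval (par (c j)))) ↔ _
    rw [Ideal.mem_iInf]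
    constructor
    · intro h j hj
      exact h ⟨j, hj⟩
    · rintro h ⟨j, hj⟩
      exact h j hj
  have hmono : Monotone I := by
    intro i i' hii Q hQ
    rw [hI] at hQ ⊢
    exact fun j hj => hQ j (hii.trans hj)
  obtain ⟨n, hn⟩ := monotone_stabilizes_iff_noetherian.2
    (inferInstance : IsNoetherian (MvPolynomial (PIdx d) k) (MvPolynomial (PIdx d) k))
    ⟨I, hmono⟩
  have h1 := hn (n + 1) (Nat.le_succ n)
  have h2 : rate k (A n) ≤ f (n + 1) := by
    refine closure_rate c n (fun j : ℕ => n + 1 + j) (fun Q hQ => ?_) fun j => ?_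
    · have h3 : Q ∈ I (n + 1) := by
        rw [hI]
        intro j hj
        obtain ⟨i, rfl⟩ := Nat.exists_eq_add_of_le hj
        exact hQ i
      have h4 : Q ∈ I n := by
        have h5 : I n = I (n + 1) := h1
        rw [h5]
        exact h3
      exact (hI n Q).1 h4 n le_rfl
    · have h6 := hr (n + 1 + j)
      change rate k (A (n + 1 + j)) ≤ _
      rw [h6]
      exact hf.antitone (Nat.le_add_right _ _)
  have h7 := hr n
  rw [h7] at h2
  exact absurd (hf (Nat.lt_succ_self n)) (not_lt.2 h2)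

/-- **Gap above the degree, finite certificates for Q1.** -/
theorem gap (d : ℕ) : ∃ ε : ℝ, 0 < ε ∧ ∀ (A : Type) [CommRing A] [Algebra k A]
    [Module.Finite k A] [IsLocalRing A], Module.finrank k A = d →
      (QOne k A ↔ ∃ n : ℕ, 1 ≤ n ∧
        (d : ℝ) ^ n + defect k (Pow k A n) < ((d : ℝ) + ε) ^ n) := by
  obtain ⟨ε, hε, hgap⟩ : ∃ ε : ℝ, 0 < ε ∧ ∀ x ∈ growthRates k d, x < d + ε → x ≤ d := by
    have hwf : ({x ∈ growthRates k d | (d : ℝ) < x}).IsWF :=
      (growthRates_isWF (k := k) d).mono (Set.sep_subset _ _)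
    by_cases hne : ({x ∈ growthRates k d | (d : ℝ) < x}).Nonempty
    · refine ⟨hwf.min hne - d, ?_, fun x hx hxd => ?_⟩
      · have := (hwf.min_mem hne).2
        linarith
      · by_contra hcon
        push Not at hcon
        have h1 := hwf.min_le hne (a := x) ⟨hx, hcon⟩
        linarith
    · refine ⟨1, one_pos, fun x hx _ => ?_⟩
      by_contra hcon
      push Not at hcon
      exact hne ⟨x, hx, hcon⟩
  refine ⟨ε, hε, fun A _ _ _ _ hd => ?_⟩
  have hr := one_le_rate (k := k) A
  constructor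
  · intro h
    rw [qOne_iff_rate, hd] at h
    have h1 : rate k A < d + ε := by linarith
    rw [rate_eq A] at h1
    obtain ⟨N, hN⟩ := exists_lt_of_ciInf_lt h1
    refine ⟨N + 1, by omega, ?_⟩
    have h2 : ((mdeg k (Pow k A (N + 1)) : ℕ) : ℝ) < ((d : ℝ) + ε) ^ (N + 1) := by
      have h3 := pow_lt_pow_left₀ hN (by positivity) (Nat.succ_ne_zero N)
      refine lt_of_le_of_lt (le_of_eq ?_) h3
      rw [← Real.rpow_natCast, ← Real.rpow_mul (Nat.cast_nonneg _)]
      push_cast
      rw [one_div, inv_mul_cancel₀ (by positivity), Real.rpow_one]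
    rw [← fadd k (Pow k A (N + 1)), finrank_Pow', hd] at h2
    push_cast at h2
    exact h2
  · rintro ⟨n, hn, h⟩
    have h1 : rate k A ^ n ≤ (d : ℝ) ^ n + defect k (Pow k A n) := by
      refine (rate_pow_le A n).trans (le_of_eq ?_)
      rw [← fadd k (Pow k A n), finrank_Pow', hd]
      push_cast
      rfl
    have h2 : rate k A < d + ε := lt_of_pow_lt_pow_left₀ n (by positivity) (h1.trans_lt h)
    have h3 := hgap (rate k A) ⟨A, inferInstance, inferInstance, inferInstance, inferInstance, hd,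
      rfl⟩ h2
    rw [qOne_iff_rate, hd]
    refine le_antisymm h3 ?_
    have := finrank_le_rate (k := k) A
    rwa [hd] at this

end Pool.Agent.N86.SQ
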