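import Pool.Agent.N86.SQ.Rate
import Pool.Agent.H826R3.SM.WApprox

/-!
# Points and simultaneous representations of functionals
-/

set_option autoImplicit false

namespace Pool.Agent.N86.SQ

open scoped TensorProduct PowerSeries
open Pool.Agent.H826R3.SM Pool.Agent.TH671.DU
open MvPolynomial

variable {k : Type} [Field k]

/-- all functionals of a finite family are represented approximately by the same points -/
def JointO (k : Type) [Field k] (O : Type) [CommRing O] [Algebra k⟦X⟧ O] {τ : Type} (T : Type)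
    [Fintype T] {ι : Type} (Ψ : ι → MvPolynomial τ k →ₗ[k] k) (q : T → τ → O) (h : ℕ) : Prop :=
  ∀ i, ∃ c : T → O, ∀ F : MvPolynomial τ k, ∃ g : k⟦X⟧,
    ∑ t, c t * eval₂ (iO k O) (q t) F = algebraMap k⟦X⟧ O (PowerSeries.X ^ h * g) ∧
      PowerSeries.constantCoeff g = Ψ i F

theorem joint_of_fam {P : Type} [CommRing P] [Algebra k P] {D : ℕ} (hP : Fam k P D) {τ : Type}
    [Finite τ] (θ : MvPolynomial τ k →ₐ[k] P) {ι : Type} [Finite ι] (φ : ι → P →ₗ[k] k) :
    ∃ (O : Type) (_ : CommRing O) (_ : Algebra k⟦X⟧ O) (_ : Module.Finite k⟦X⟧ O)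
      (_ : Module.Free k⟦X⟧ O) (_ : FaithfulSMul k⟦X⟧ O) (T : Type) (_ : Fintype T) (h : ℕ)
      (q : T → τ → O),
      Fintype.card T ≤ D ∧ JointO k O T (fun i => φ i ∘ₗ θ.toLinearMap) q h := by
  classical
  have := Fintype.ofFinite τ
  have := Fintype.ofFinite ι
  obtain ⟨𝒜, cA, aA, hfin, hfree, hred, hrk, π, hπs, hπC⟩ := hP
  have hπ : ∀ (r : k⟦X⟧) (x : 𝒜), π (r • x) = PowerSeries.constantCoeff r • π x := by
    intro r x
    rw [Algebra.smul_def, map_mul, hπC, ← Algebra.smul_def]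
  obtain ⟨T, fT, hT, χ, hχ⟩ := decomp (geomRed_iff.mpr hred)
  let L := LL k
  choose x hx using fun v : τ => hπs (θ (X v))
  choose Ψ' hΨ' using fun i => exists_lift_functional π hπ (φ i)
  choose c hc using fun i => hχ (Ψ' i)
  let XF : MvPolynomial τ k → 𝒜 := fun F => eval₂ (iO k 𝒜) x F
  have hXF : ∀ F, π (XF F) = θ F := by
    intro F
    have h1 : π.comp (eval₂Hom (iO k 𝒜) x) = θ.toRingHom := by
      refine MvPolynomial.ringHom_ext (fun r => ?_) fun v => ?_
      · change π (eval₂ (iO k 𝒜) x (C r)) = θ (C r)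
        rw [eval₂_C]
        change π (algebraMap k⟦X⟧ 𝒜 (PowerSeries.C r)) = _
        rw [hπC, ← MvPolynomial.algebraMap_eq, AlgHom.commutes]
        congr 1
      · change π (eval₂ (iO k 𝒜) x (X v)) = θ (X v)
        rw [eval₂_X, hx]
    exact congrArg (fun f => f F) h1
  have hval : ∀ i F, PowerSeries.constantCoeff (Ψ' i (XF F)) = φ i (θ F) := by
    intro i F
    rw [hΨ', hXF]
  have hχF : ∀ t F, χ t (XF F) = eval₂ (iO k L) (fun v => χ t (x v)) F := by
    intro t F
    have h1 : (χ t).toRingHom (eval₂ (iO k 𝒜) x F) =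
        eval₂ ((χ t).toRingHom.comp (iO k 𝒜)) ((χ t).toRingHom ∘ x) F := eval₂_comp_left _ _ _ _
    have h2 : (χ t).toRingHom.comp (iO k 𝒜) = iO k L := by
      refine RingHom.ext fun r => ?_
      exact (χ t).commutes (PowerSeries.C r)
    rw [h2] at h1
    exact h1
  have halg1 : Algebra.IsAlgebraic k⟦X⟧ (LaurentSeries k) :=
    IsLocalization.isAlgebraic _ (nonZeroDivisors k⟦X⟧)
  have halg : Algebra.IsAlgebraic k⟦X⟧ L :=
    Algebra.IsAlgebraic.trans k⟦X⟧ (LaurentSeries k) L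
  have hinj : Function.Injective (algebraMap k⟦X⟧ L) := by
    rw [IsScalarTower.algebraMap_eq k⟦X⟧ (LaurentSeries k) L]
    exact (algebraMap (LaurentSeries k) L).injective.comp
      (IsFractionRing.injective k⟦X⟧ (LaurentSeries k))
  obtain ⟨h, hh⟩ := exists_X_pow_integral (k := k)
    (Finset.univ.image fun t : ι × T => c t.1 t.2)
  let S0 : Set L := (Set.range fun z : T × τ => χ z.1 (x z.2)) ∪
    (Set.range fun t : ι × T => (PowerSeries.X ^ h : k⟦X⟧) • c t.1 t.2)
  have hS0 : S0.Finite := (Set.finite_range _).union (Set.finite_range _)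
  have hSint : ∀ z ∈ S0, IsIntegral k⟦X⟧ z := by
    rintro z (⟨w, rfl⟩ | ⟨w, rfl⟩)
    · exact (Algebra.IsIntegral.isIntegral (R := k⟦X⟧) (x w.2)).map (χ w.1)
    · exact hh _ (Finset.mem_image.mpr ⟨w, Finset.mem_univ _, rfl⟩)
  let O := Algebra.adjoin k⟦X⟧ S0
  have hOfin : Module.Finite k⟦X⟧ O := Module.Finite.iff_fg.mpr (fg_adjoin_of_finite hS0 hSint)
  have hOinj : Function.Injective (algebraMap k⟦X⟧ O) := by
    intro x y hxy
    exact hinj (congrArg Subtype.val hxy)
  have hOf : FaithfulSMul k⟦X⟧ O := (faithfulSMul_iff_algebraMap_injective _ _).mpr hOinj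
  have hOtf : Module.IsTorsionFree k⟦X⟧ O := inferInstance
  have hOfree : Module.Free k⟦X⟧ O := Module.free_of_finite_type_torsion_free'
  refine ⟨O, inferInstance, inferInstance, hOfin, hOfree, hOf, T, fT, h,
    fun t v => ⟨χ t (x v), Algebra.subset_adjoin (Or.inl ⟨(t, v), rfl⟩)⟩, hT.trans hrk, ?_⟩
  intro i
  refine ⟨fun t => ⟨(PowerSeries.X ^ h : k⟦X⟧) • c i t,
    Algebra.subset_adjoin (Or.inr ⟨(i, t), rfl⟩)⟩, fun F => ?_⟩
  refine ⟨Ψ' i (XF F), ?_, hval i F⟩
  apply Subtype.ext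
  rw [AddSubmonoidClass.coe_finsetSum]
  have h3 : ∀ t, ((eval₂ (iO k O) (fun v => (⟨χ t (x v),
      Algebra.subset_adjoin (Or.inl ⟨(t, v), rfl⟩)⟩ : O)) F : O) : L) =
        eval₂ (iO k L) (fun v => χ t (x v)) F := by
    intro t
    have h4 := eval₂_comp_left O.val.toRingHom (iO k O) (fun v => (⟨χ t (x v),
      Algebra.subset_adjoin (Or.inl ⟨(t, v), rfl⟩)⟩ : O)) F
    have h5 : O.val.toRingHom.comp (iO k O) = iO k L := rfl
    rw [h5] at h4
    exact h4
  change ∑ t, (((PowerSeries.X ^ h : k⟦X⟧) • c i t) * ((eval₂ (iO k O) (fun v => (⟨χ t (x v),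
      Algebra.subset_adjoin (Or.inl ⟨(t, v), rfl⟩)⟩ : O)) F : O) : L)) =
    algebraMap k⟦X⟧ L (PowerSeries.X ^ h * Ψ' i (XF F))
  rw [map_mul, hc, Finset.mul_sum]
  refine Finset.sum_congr rfl fun t _ => ?_
  rw [h3, ← hχF, Algebra.smul_def]
  ring

section extract

variable {O : Type} [CommRing O] [Algebra k⟦X⟧ O] [Module.Finite k⟦X⟧ O] [Module.Free k⟦X⟧ O]
  {τ : Type}

/-- the points of the grid -/
noncomputable def gpt (em : ℕ ↪ k) (q : τ → O) (H m : ℕ)
    (w : Fin (m * H + 1) × (Fin (Module.finrank k⟦X⟧ O) → Fin (m + 1))) (v : τ) : k :=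
  eval (grid (m * H) m em w) (QQ q H v)

theorem extract_all (em : ℕ ↪ k) (η : O →ₗ[k⟦X⟧] k⟦X⟧) (c : O) (q : τ → O) (H m : ℕ) :
    ∃ (c' : Fin (m * H + 1) × (Fin (Module.finrank k⟦X⟧ O) → Fin (m + 1)) → k),
      ∀ (e : ℕ) (F : MvPolynomial τ k), e ≤ m → F.IsHomogeneous e →
        PowerSeries.coeff H (η (c * eval₂ (iO k O) q F)) = ∑ w, c' w * eval (gpt em q H m w) F := by
  let Λ : MvPolynomial (Option (Fin (Module.finrank k⟦X⟧ O))) k →ₗ[k] k :=
    { toFun := fun P => PowerSeries.coeff H (η (c * SO k O P))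
      map_add' := fun P Q => by rw [map_add, mul_add, map_add, map_add]
      map_smul' := fun r P => by
        have h1 : SO k O (r • P) = algebraMap k⟦X⟧ O (PowerSeries.C r) * SO k O P := by
          rw [smul_eq_C_mul, map_mul]
          congr 1
          unfold SO
          rw [coe_eval₂Hom, eval₂_C]
          rfl
        rw [h1, mul_left_comm, ← Algebra.smul_def, map_smul, smul_eq_mul,
          PowerSeries.coeff_C_mul]
        rfl }
  obtain ⟨c', hc'⟩ := functional_grid (m * H) m em Λ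
  refine ⟨c', fun e F he hF => ?_⟩
  have hmem : aeval (QQ q H) F ∈ bdd k (Module.finrank k⟦X⟧ O) (m * H) m := by
    refine ⟨(degreeOf_aeval_le none _ (degreeOf_QQ_none q H) hF).trans
      (Nat.mul_le_mul_right _ he), fun u => ?_⟩
    have := degreeOf_aeval_le (some u) (QQ q H) (fun v => degreeOf_QQ_some q H v u) hF
    rw [mul_one] at this
    exact this.trans he
  have h1 : ∃ y : O, eval₂ (iO k O) q F = SO k O (aeval (QQ q H) F) +
      algebraMap k⟦X⟧ O (PowerSeries.X ^ (H + 1)) * y := by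
    set J : Ideal O := Ideal.span {algebraMap k⟦X⟧ O (PowerSeries.X ^ (H + 1))} with hJ
    have h2 : (Ideal.Quotient.mk J).comp (eval₂Hom (iO k O) q) =
        ((Ideal.Quotient.mk J).comp (SO k O)).comp
          (aeval (QQ q H) : MvPolynomial τ k →ₐ[k] _).toRingHom := by
      refine MvPolynomial.ringHom_ext (fun r => ?_) fun v => ?_
      · change Ideal.Quotient.mk J (eval₂ (iO k O) q (C r)) =
          Ideal.Quotient.mk J (SO k O (aeval (QQ q H) (C r)))
        rw [eval₂_C, aeval_C]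
        change _ = Ideal.Quotient.mk J (SO k O (C r))
        unfold SO
        rw [coe_eval₂Hom, eval₂_C]
      · change Ideal.Quotient.mk J (eval₂ (iO k O) q (X v)) =
          Ideal.Quotient.mk J (SO k O (aeval (QQ q H) (X v)))
        rw [eval₂_X, aeval_X, Ideal.Quotient.eq, hJ, Ideal.mem_span_singleton]
        obtain ⟨y, hy⟩ := SO_QQ (k := k) q H v
        exact ⟨y, by rw [← sub_eq_iff_eq_add'.mpr hy]⟩
    have h3 : Ideal.Quotient.mk J (eval₂ (iO k O) q F) =
        Ideal.Quotient.mk J (SO k O (aeval (QQ q H) F)) := congrArg (fun f => f F) h2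
    rw [Ideal.Quotient.eq, hJ, Ideal.mem_span_singleton] at h3
    obtain ⟨y, hy⟩ := h3
    exact ⟨y, by rw [← hy]; ring⟩
  obtain ⟨y, hy⟩ := h1
  have h4 : PowerSeries.coeff H (η (c * eval₂ (iO k O) q F)) = Λ (aeval (QQ q H) F) := by
    change _ = PowerSeries.coeff H (η (c * SO k O (aeval (QQ q H) F)))
    rw [hy, mul_add, map_add, map_add, mul_left_comm, ← Algebra.smul_def, map_smul, smul_eq_mul,
      PowerSeries.coeff_X_pow_mul', if_neg (by omega), add_zero]
  rw [h4, hc' _ hmem]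
  refine Finset.sum_congr rfl fun w _ => ?_
  congr 1
  have h5 : (eval (grid (m * H) m em w)).comp (aeval (QQ q H) : MvPolynomial τ k →ₐ[k] _).toRingHom =
      eval fun v => eval (grid (m * H) m em w) (QQ q H v) := by
    refine MvPolynomial.ringHom_ext (fun r => ?_) fun v => ?_
    · change eval _ (aeval (QQ q H) (C r)) = _
      rw [aeval_C, eval_C]
      change eval _ (C r) = r
      rw [eval_C]
    · change eval _ (aeval (QQ q H) (X v)) = _
      rw [aeval_X, eval_X]
  exact congrArg (fun f => f F) h5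

end extract

end Pool.Agent.N86.SQ
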