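import Pool.Agent.N86.SQ.LineRate

/-!
# Approximate simultaneous representations of functionals, their powers
-/

set_option autoImplicit false
set_option linter.unusedSectionVars false

namespace Pool.Agent.N86.SQ

open scoped TensorProduct PowerSeries Topology
open Pool.Agent.H826R3.SM Pool.Agent.TH671.DU
open MvPolynomial

variable {k : Type} [Field k]

/-- all functionals of a family are represented approximately by the same points -/
def JointA (k : Type) [Field k] (O : Type) [CommRing O] [Algebra k⟦X⟧ O] {τ : Type} (T : Type)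
    [Fintype T] {ι : Type} (Ψ : ι → MvPolynomial τ k →ₗ[k] k) (q : T → τ → O) (h : ℕ) : Prop :=
  ∀ i, ∃ c : T → O, ∀ F : MvPolynomial τ k, ∃ r : O,
    ∑ t, c t * eval₂ (iO k O) (q t) F = algebraMap k⟦X⟧ O (PowerSeries.X ^ h) *
      (iO k O (Ψ i F) + algebraMap k⟦X⟧ O PowerSeries.X * r)

theorem JointO.jointA {O : Type} [CommRing O] [Algebra k⟦X⟧ O] {τ : Type} {T : Type}
    [Fintype T] {ι : Type} {Ψ : ι → MvPolynomial τ k →ₗ[k] k} {q : T → τ → O} {h : ℕ}
    (H : JointO k O T Ψ q h) : JointA k O T Ψ q h := by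
  intro i
  obtain ⟨c, hc⟩ := H i
  refine ⟨c, fun F => ?_⟩
  obtain ⟨g, hg1, hg2⟩ := hc F
  obtain ⟨r, hr⟩ := powerSeries_split g
  refine ⟨algebraMap k⟦X⟧ O r, ?_⟩
  rw [hg1, hr, hg2, map_mul, map_add, map_mul]
  rfl

theorem prod_add_mul {R ι : Type} [CommRing R] (s : Finset ι) (a r : ι → R) (x : R) :
    ∃ y, ∏ i ∈ s, (a i + x * r i) = ∏ i ∈ s, a i + x * y := by
  classical
  induction s using Finset.induction_on with
  | empty => exact ⟨0, by simp⟩
  | insert i s hi ih =>
    obtain ⟨y, hy⟩ := ih
    refine ⟨a i * y + r i * ∏ i ∈ s, a i + x * r i * y, ?_⟩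
    rw [Finset.prod_insert hi, Finset.prod_insert hi, hy]
    ring

section power

variable {A : Type} [CommRing A] [Algebra k A] [Module.Finite k A] {O : Type} [CommRing O]
  [Algebra k⟦X⟧ O] {σ T : Type} [Fintype T]

theorem JointA.pow {a : σ → A} {q : T → σ → O} {h : ℕ}
    (H : JointA k O T (fun j => (Module.finBasis k A).coord j ∘ₗ
      (aeval a : MvPolynomial σ k →ₐ[k] A).toLinearMap) q h) (n : ℕ)
    (φ : Pow k A n →ₗ[k] k) :
    ∃ c : (Fin n → T) → O, ∀ M : MvPolynomial (Fin n × σ) k, ∃ r : O,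
      ∑ t : Fin n → T, c t * eval₂ (iO k O) (fun v => q (t v.1) v.2) M =
        algebraMap k⟦X⟧ O (PowerSeries.X ^ (n * h)) *
          (iO k O (φ (aeval (fun v : Fin n × σ => sg k A v.1 (a v.2)) M)) +
            algebraMap k⟦X⟧ O PowerSeries.X * r) := by
  classical
  let b := Module.finBasis k A
  choose Λ hΛ' using H
  let c : (Fin n → Fin (Module.finrank k A)) → k := fun q =>
    φ (Basis.piTensorProduct (fun _ => b) q)
  refine ⟨fun t => ∑ u, iO k O (c u) * ∏ i, Λ (u i) (t i), fun M => ?_⟩
  have hM := mem_span_prod (k := k) (σ := σ) n M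
  induction hM using Submodule.span_induction with
  | mem x hx =>
    obtain ⟨N, rfl⟩ := hx
    choose G hG using fun (j) (i : Fin n) => hΛ' j (N i)
    -- the errors of the products
    choose Y hY using fun u : Fin n → Fin (Module.finrank k A) =>
      prod_add_mul Finset.univ (fun i => iO k O ((b.coord (u i) ∘ₗ
        (aeval a : MvPolynomial σ k →ₐ[k] A).toLinearMap) (N i))) (fun i => G (u i) i)
        (algebraMap k⟦X⟧ O PowerSeries.X)
    refine ⟨∑ u, iO k O (c u) * Y u, ?_⟩
    have h1 : ∀ t : Fin n → T, eval₂ (iO k O) (fun v : Fin n × σ => q (t v.1) v.2)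
          (∏ i, rename (Prod.mk i) (N i)) = ∏ i, eval₂ (iO k O) (q (t i)) (N i) := by
        intro t
        rw [← coe_eval₂Hom, map_prod]
        refine Finset.prod_congr rfl fun i _ => ?_
        rw [coe_eval₂Hom, eval₂_rename]
        rfl
    simp only [h1]
    have h2 : aeval (fun v : Fin n × σ => sg k A v.1 (a v.2))
          (∏ i, rename (Prod.mk i) (N i)) =
          (PiTensorProduct.tprod k fun i => aeval a (N i) : Pow k A n) := by
        rw [map_prod, tprod_eq_prod_single]
        refine Finset.prod_congr rfl fun i _ => ?_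
        rw [aeval_rename]
        change aeval (fun s => sg k A i (a s)) (N i) = _
        rw [← MvPolynomial.comp_aeval_apply]
    have h3 : φ (PiTensorProduct.tprod k fun i => aeval a (N i) : Pow k A n) =
        ∑ u, c u * ∏ i, (b.coord (u i) ∘ₗ
          (aeval a : MvPolynomial σ k →ₐ[k] A).toLinearMap) (N i) := by
      rw [← (Basis.piTensorProduct (fun _ : Fin n => b)).sum_repr
        (PiTensorProduct.tprod k fun i => aeval a (N i)), map_sum]
      refine Finset.sum_congr rfl fun u _ => ?_
      rw [map_smul, smul_eq_mul, mul_comm]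
      congr 1
      rw [Basis.piTensorProduct_repr_tprod_apply]
      rfl
    rw [h2, h3]
    calc ∑ t : Fin n → T, (∑ u, iO k O (c u) * ∏ i, Λ (u i) (t i)) *
            ∏ i, eval₂ (iO k O) (q (t i)) (N i)
          = ∑ u, iO k O (c u) * ∑ t : Fin n → T,
              ∏ i, (Λ (u i) (t i) * eval₂ (iO k O) (q (t i)) (N i)) := by
            simp only [Finset.sum_mul, Finset.mul_sum, Finset.prod_mul_distrib, mul_assoc]
            exact Finset.sum_comm
        _ = ∑ u, iO k O (c u) * ∏ i, ∑ t : T, Λ (u i) t * eval₂ (iO k O) (q t) (N i) := by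
            refine Finset.sum_congr rfl fun u _ => ?_
            rw [Finset.prod_univ_sum, Fintype.piFinset_univ]
        _ = ∑ u, iO k O (c u) * (algebraMap k⟦X⟧ O (PowerSeries.X ^ (n * h)) *
              (∏ i, iO k O ((b.coord (u i) ∘ₗ
                (aeval a : MvPolynomial σ k →ₐ[k] A).toLinearMap) (N i)) +
                algebraMap k⟦X⟧ O PowerSeries.X * Y u)) := by
            refine Finset.sum_congr rfl fun u _ => ?_
            rw [← hY u]
            congr 1
            have h4 : ∀ i, ∑ t : T, Λ (u i) t * eval₂ (iO k O) (q t) (N i) =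
                algebraMap k⟦X⟧ O (PowerSeries.X ^ h) *
                  (iO k O ((b.coord (u i) ∘ₗ
                    (aeval a : MvPolynomial σ k →ₐ[k] A).toLinearMap) (N i)) +
                    algebraMap k⟦X⟧ O PowerSeries.X * G (u i) i) := fun i => hG (u i) i
            simp only [h4]
            rw [Finset.prod_mul_distrib, Finset.prod_const, Finset.card_univ, Fintype.card_fin,
              ← map_pow, ← pow_mul, mul_comm h n]
        _ = _ := by
            rw [map_sum]
            simp only [map_mul, map_prod, Finset.mul_sum, mul_add, Finset.sum_add_distrib]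
            congr 1
            · refine Finset.sum_congr rfl fun u _ => ?_
              ring
            · refine Finset.sum_congr rfl fun u _ => ?_
              ring
  | zero => exact ⟨0, by simp⟩
  | add x y _ _ hx hy =>
    obtain ⟨g1, h1⟩ := hx
    obtain ⟨g2, h2⟩ := hy
    refine ⟨g1 + g2, ?_⟩
    have h3 : ∑ t : Fin n → T, (∑ u, iO k O (c u) * ∏ i, Λ (u i) (t i)) *
        eval₂ (iO k O) (fun v => q (t v.1) v.2) (x + y) =
        ∑ t : Fin n → T, (∑ u, iO k O (c u) * ∏ i, Λ (u i) (t i)) *
          eval₂ (iO k O) (fun v => q (t v.1) v.2) x +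
        ∑ t : Fin n → T, (∑ u, iO k O (c u) * ∏ i, Λ (u i) (t i)) *
          eval₂ (iO k O) (fun v => q (t v.1) v.2) y := by
      rw [← Finset.sum_add_distrib]
      refine Finset.sum_congr rfl fun t _ => ?_
      rw [eval₂_add, mul_add]
    rw [h3, h1, h2, map_add, map_add, map_add]
    ring
  | smul r x _ hx =>
    obtain ⟨g1, h1⟩ := hx
    refine ⟨iO k O r * g1, ?_⟩
    have h3 : ∑ t : Fin n → T, (∑ u, iO k O (c u) * ∏ i, Λ (u i) (t i)) *
        eval₂ (iO k O) (fun v => q (t v.1) v.2) (r • x) =
        iO k O r * ∑ t : Fin n → T, (∑ u, iO k O (c u) * ∏ i, Λ (u i) (t i)) *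
          eval₂ (iO k O) (fun v => q (t v.1) v.2) x := by
      rw [Finset.mul_sum]
      refine Finset.sum_congr rfl fun t _ => ?_
      rw [smul_eq_C_mul, eval₂_mul, eval₂_C]
      ring
    rw [h3, h1, map_smul, map_smul, smul_eq_mul, map_mul]
    ring

/-- the homogeneous polynomials of degree at most `m` which vanish in the points `p w` vanish on
`Spec A` -/
def LinesUpTo (k : Type) [Field k] {A σ : Type} [CommRing A] [Algebra k A] (a : σ → A) (m W : ℕ) :
    Prop :=
  ∃ p : Fin W → σ → k, ∀ e ≤ m, ∀ M : MvPolynomial σ k, M.IsHomogeneous e →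
    (∀ w, eval (p w) M = 0) → aeval a M = 0

theorem linesUpTo_of_joint [Infinite k] [Module.Finite k⟦X⟧ O] [Module.Free k⟦X⟧ O]
    [FaithfulSMul k⟦X⟧ O] {a : σ → A} {q : T → σ → O} {h : ℕ}
    (H : JointA k O T (fun j => (Module.finBasis k A).coord j ∘ₗ
      (aeval a : MvPolynomial σ k →ₐ[k] A).toLinearMap) q h) (n m : ℕ) :
    LinesUpTo k (fun v : Fin n × σ => sg k A v.1 (a v.2)) m
      (Fintype.card T ^ n * ((m * (n * h) + 1) * (m + 1) ^ Module.finrank k⟦X⟧ O)) := by
  classical
  obtain ⟨η, hη⟩ := exists_retraction (k := k) (O := O)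
  let em := Infinite.natEmbedding k
  let I := (Fin n → T) × (Fin (m * (n * h) + 1) × (Fin (Module.finrank k⟦X⟧ O) → Fin (m + 1)))
  let p : I → Fin n × σ → k := fun z => gpt em (fun v => q (z.1 v.1) v.2) (n * h) m z.2
  have hcard : Fintype.card I =
      Fintype.card T ^ n * ((m * (n * h) + 1) * (m + 1) ^ Module.finrank k⟦X⟧ O) := by
    simp only [I, Fintype.card_prod, Fintype.card_fun, Fintype.card_fin]
  let E := (Fintype.equivFin I).trans (finCongr hcard)
  refine ⟨fun w => p (E.symm w), fun e he M hMh hM => ?_⟩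
  have hM' : ∀ z, eval (p z) M = 0 := by
    intro z
    have h1 := hM (E z)
    change eval (p (E.symm (E z))) M = 0 at h1
    rwa [E.symm_apply_apply] at h1
  rw [← Module.forall_dual_apply_eq_zero_iff k]
  intro φ
  obtain ⟨c, hc⟩ := H.pow n φ
  obtain ⟨r, hr⟩ := hc M
  have h1 : PowerSeries.coeff (n * h) (η (algebraMap k⟦X⟧ O (PowerSeries.X ^ (n * h)) *
      (iO k O (φ (aeval (fun v : Fin n × σ => sg k A v.1 (a v.2)) M)) +
        algebraMap k⟦X⟧ O PowerSeries.X * r))) =
      φ (aeval (fun v : Fin n × σ => sg k A v.1 (a v.2)) M) := by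
    rw [← Algebra.smul_def, map_smul, smul_eq_mul, PowerSeries.coeff_X_pow_mul', if_pos le_rfl,
      Nat.sub_self, PowerSeries.coeff_zero_eq_constantCoeff_apply, map_add, map_add,
      ← Algebra.smul_def, map_smul, smul_eq_mul, map_mul, PowerSeries.constantCoeff_X, zero_mul,
      add_zero]
    have h2 : iO k O (φ (aeval (fun v : Fin n × σ => sg k A v.1 (a v.2)) M)) =
        PowerSeries.C (φ (aeval (fun v : Fin n × σ => sg k A v.1 (a v.2)) M)) • (1 : O) := by
      rw [Algebra.smul_def, mul_one]
      rfl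
    rw [h2, map_smul, hη, smul_eq_mul, mul_one, PowerSeries.constantCoeff_C]
  rw [← h1, ← hr, map_sum, map_sum]
  refine Finset.sum_eq_zero fun t _ => ?_
  obtain ⟨c', hc'⟩ := extract_all em η (c t) (fun v : Fin n × σ => q (t v.1) v.2) (n * h) m
  rw [hc' e M he hMh]
  refine Finset.sum_eq_zero fun w _ => ?_
  rw [show eval (gpt em (fun v : Fin n × σ => q (t v.1) v.2) (n * h) m w) M = 0 from hM' (t, w),
    mul_zero]

end power

end Pool.Agent.N86.SQ
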