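import Pool.Agent.N86.SQ.Joint

/-!
# Unions of lines through a point
-/

set_option autoImplicit false

namespace Pool.Agent.N86.SQ

open scoped TensorProduct PowerSeries
open Pool.Agent.H826R3.SM Pool.Agent.TH671.DU
open MvPolynomial

variable {k : Type} [Field k]

/-- `Spec A`, embedded with its closed point in the origin of an affine space, is contained in a
union of `W` lines through the origin: there are nilpotent generators `a v` of `A` and `W` points
`p w` such that every polynomial all of whose homogeneous components vanish in the points `p w`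
vanishes on `Spec A`. -/
def InLines (k : Type) [Field k] (A : Type) [CommRing A] [Algebra k A] (W : ℕ) : Prop :=
  ∃ (σ : Type) (_ : Finite σ) (a : σ → A) (p : Fin W → σ → k), (∀ v, IsNilpotent (a v)) ∧
    Algebra.adjoin k (Set.range a) = ⊤ ∧
    ∀ M : MvPolynomial σ k, (∀ w e, eval (p w) (homogeneousComponent e M) = 0) → aeval a M = 0

section

variable {A B : Type} [CommRing A] [Algebra k A] [CommRing B] [Algebra k B]

theorem inLines_of_fintype {σ T : Type} [Finite σ] [Fintype T] (a : σ → A) (p : T → σ → k)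
    (ha : ∀ v, IsNilpotent (a v)) (hgen : Algebra.adjoin k (Set.range a) = ⊤)
    (h : ∀ M : MvPolynomial σ k, (∀ w e, eval (p w) (homogeneousComponent e M) = 0) →
      aeval a M = 0) : InLines k A (Fintype.card T) := by
  let E := Fintype.equivFin T
  refine ⟨σ, inferInstance, a, fun w => p (E.symm w), ha, hgen, fun M hM => h M fun w e => ?_⟩
  have h1 := hM (E w) e
  change eval (p (E.symm (E w))) _ = 0 at h1
  rwa [E.symm_apply_apply] at h1

theorem InLines.of_surjective {W : ℕ} (h : InLines k A W) (f : A →ₐ[k] B)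
    (hf : Function.Surjective f) : InLines k B W := by
  obtain ⟨σ, hσ, a, p, ha, hgen, hM⟩ := h
  refine ⟨σ, hσ, fun v => f (a v), p, fun v => (ha v).map f, ?_, fun M h => ?_⟩
  · have h1 : (Set.range fun v => f (a v)) = f '' Set.range a := by
      rw [← Set.range_comp]
      rfl
    rw [h1, ← AlgHom.map_adjoin, hgen, Algebra.map_top, AlgHom.range_eq_top]
    exact hf
  · have h1 := hM M h
    have h2 : aeval (fun v => f (a v)) M = f (aeval a M) := by
      rw [← MvPolynomial.comp_aeval_apply]
    rw [h2, h1, map_zero]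

theorem InLines.mono {W W' : ℕ} (h : InLines k A W) (hW : W ≤ W') (h0 : 1 ≤ W) :
    InLines k A W' := by
  obtain ⟨σ, hσ, a, p, ha, hgen, hM⟩ := h
  refine ⟨σ, hσ, a, fun w => if hw : (w : ℕ) < W then p ⟨w, hw⟩ else p ⟨0, h0⟩, ha, hgen,
    fun M h => hM M fun w e => ?_⟩
  have := h ⟨w, by omega⟩ e
  simpa using this

end

section power

variable {A : Type} [CommRing A] [Algebra k A] [Module.Finite k A] {O : Type} [CommRing O]
  [Algebra k⟦X⟧ O] {σ T : Type} [Fintype T]

theorem JointO.pow {a : σ → A} {q : T → σ → O} {h : ℕ}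
    (H : JointO k O T (fun j => (Module.finBasis k A).coord j ∘ₗ
      (aeval a : MvPolynomial σ k →ₐ[k] A).toLinearMap) q h) (n : ℕ)
    (φ : Pow k A n →ₗ[k] k) :
    ∃ c : (Fin n → T) → O, ∀ M : MvPolynomial (Fin n × σ) k, ∃ g : k⟦X⟧,
      ∑ t : Fin n → T, c t * eval₂ (iO k O) (fun v => q (t v.1) v.2) M =
        algebraMap k⟦X⟧ O (PowerSeries.X ^ (n * h) * g) ∧
      PowerSeries.constantCoeff g = φ (aeval (fun v : Fin n × σ => sg k A v.1 (a v.2)) M) := by
  classical
  let b := Module.finBasis k A
  choose Λ hΛ' using H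
  let c : (Fin n → Fin (Module.finrank k A)) → k := fun q =>
    φ (Basis.piTensorProduct (fun _ => b) q)
  refine ⟨fun t => ∑ u, iO k O (c u) * ∏ i, Λ (u i) (t i), fun M => ?_⟩
  have hM := mem_span_prod (k := k) (σ := σ) n M
  induction hM using Submodule.span_induction with
  | mem x hx =>
    obtain ⟨N, rfl⟩ := hx
    choose G hG1 hG2 using fun (j) (i : Fin n) => hΛ' j (N i)
    refine ⟨∑ u, PowerSeries.C (c u) * ∏ i, G (u i) i, ?_, ?_⟩
    · have h1 : ∀ t : Fin n → T, eval₂ (iO k O) (fun v : Fin n × σ => q (t v.1) v.2)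
          (∏ i, rename (Prod.mk i) (N i)) = ∏ i, eval₂ (iO k O) (q (t i)) (N i) := by
        intro t
        rw [← coe_eval₂Hom, map_prod]
        refine Finset.prod_congr rfl fun i _ => ?_
        rw [coe_eval₂Hom, eval₂_rename]
        rfl
      simp only [h1]
      calc ∑ t : Fin n → T, (∑ u, iO k O (c u) * ∏ i, Λ (u i) (t i)) *
            ∏ i, eval₂ (iO k O) (q (t i)) (N i)
          = ∑ u, iO k O (c u) * ∑ t : Fin n → T,
              ∏ i, (Λ (u i) (t i) * eval₂ (iO k O) (q (t i)) (N i)) := by
            simp only [Finset.sum_mul, Finset.mul_sum, Finset.prod_mul_distrib, mul_assoc]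
            exact Finset.sum_comm
        _ = ∑ u, iO k O (c u) * ∏ i, ∑ t : T, Λ (u i) t * eval₂ (iO k O) (q t) (N i) := by
            refine Finset.sum_congr rfl fun u _ => ?_
            rw [Finset.prod_univ_sum, Fintype.piFinset_univ]
        _ = ∑ u, iO k O (c u) * ∏ i, algebraMap k⟦X⟧ O (PowerSeries.X ^ h * G (u i) i) := by
            refine Finset.sum_congr rfl fun u _ => ?_
            simp only [hG1]
        _ = algebraMap k⟦X⟧ O (PowerSeries.X ^ (n * h) *
              ∑ u, PowerSeries.C (c u) * ∏ i, G (u i) i) := by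
            rw [Finset.mul_sum, map_sum]
            refine Finset.sum_congr rfl fun u _ => ?_
            have h2 : iO k O (c u) = algebraMap k⟦X⟧ O (PowerSeries.C (c u)) := rfl
            rw [← map_prod, h2, ← map_mul]
            congr 1
            rw [Finset.prod_mul_distrib, Finset.prod_const, Finset.card_univ, Fintype.card_fin,
              ← pow_mul, mul_comm h n]
            ring
    · have h2 : aeval (fun v : Fin n × σ => sg k A v.1 (a v.2))
          (∏ i, rename (Prod.mk i) (N i)) =
          (PiTensorProduct.tprod k fun i => aeval a (N i) : Pow k A n) := by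
        rw [map_prod, tprod_eq_prod_single]
        refine Finset.prod_congr rfl fun i _ => ?_
        rw [aeval_rename]
        change aeval (fun s => sg k A i (a s)) (N i) = _
        rw [← MvPolynomial.comp_aeval_apply]
      rw [h2, ← (Basis.piTensorProduct (fun _ : Fin n => b)).sum_repr
        (PiTensorProduct.tprod k fun i => aeval a (N i)), map_sum, map_sum]
      refine Finset.sum_congr rfl fun u _ => ?_
      rw [map_mul, PowerSeries.constantCoeff_C, map_prod, map_smul, smul_eq_mul, mul_comm]
      congr 1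
      rw [Basis.piTensorProduct_repr_tprod_apply]
      refine Finset.prod_congr rfl fun i _ => ?_
      rw [hG2]
      rfl
  | zero => exact ⟨0, by simp, by simp⟩
  | add x y _ _ hx hy =>
    obtain ⟨g1, h1, h1'⟩ := hx
    obtain ⟨g2, h2, h2'⟩ := hy
    refine ⟨g1 + g2, ?_, ?_⟩
    · rw [mul_add, map_add, ← h1, ← h2, ← Finset.sum_add_distrib]
      refine Finset.sum_congr rfl fun t _ => ?_
      rw [eval₂_add, mul_add]
    · rw [map_add, h1', h2', map_add, map_add]
  | smul r x _ hx =>
    obtain ⟨g1, h1, h1'⟩ := hx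
    refine ⟨PowerSeries.C r * g1, ?_, ?_⟩
    · have h3 : algebraMap k⟦X⟧ O (PowerSeries.X ^ (n * h) * (PowerSeries.C r * g1)) =
          iO k O r * algebraMap k⟦X⟧ O (PowerSeries.X ^ (n * h) * g1) := by
        have h2 : iO k O r = algebraMap k⟦X⟧ O (PowerSeries.C r) := rfl
        rw [h2, ← map_mul]
        congr 1
        ring
      rw [h3, ← h1, Finset.mul_sum]
      refine Finset.sum_congr rfl fun t _ => ?_
      rw [smul_eq_C_mul, eval₂_mul, eval₂_C]
      ring
    · rw [map_mul, h1', PowerSeries.constantCoeff_C, map_smul, map_smul, smul_eq_mul]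

end power

/-- polynomials vanish on `Spec A` if their components of small degree do -/
theorem aeval_eq_sum [IsAlgClosed k] {A σ : Type} [CommRing A] [Algebra k A] (a : σ → A) {m : ℕ}
    (hnil : Ideal.span (Set.range a) ^ (m + 1) = ⊥) (M : MvPolynomial σ k)
    (h : ∀ e ≤ m, aeval a (homogeneousComponent e M) = 0) : aeval a M = 0 := by
  have h1 : M = ∑ e ∈ Finset.range (M.totalDegree + 1), homogeneousComponent e M :=
    (sum_homogeneousComponent M).symm
  rw [h1, map_sum]
  refine Finset.sum_eq_zero fun e _ => ?_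
  by_cases he : e ≤ m
  · exact h e he
  · have h2 : aeval a (homogeneousComponent e M) ∈ Ideal.span (Set.range a) ^ e :=
      aeval_mem_pow a (homogeneousComponent_isHomogeneous e M)
    have h3 := Ideal.pow_le_pow_right (I := Ideal.span (Set.range a)) (show m + 1 ≤ e by omega) h2
    rw [hnil] at h3
    exact h3

/-- **From families to lines, for powers.** -/
theorem lines_pow [IsAlgClosed k] {A : Type} [CommRing A] [Algebra k A] [Module.Finite k A] {D : ℕ}
    (hA : Fam k A D) {σ : Type} [Finite σ] (a : σ → A) (ha : ∀ v, IsNilpotent (a v))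
    (hgen : Algebra.adjoin k (Set.range a) = ⊤) :
    ∃ e h : ℕ, ∀ n m : ℕ,
      Ideal.span (Set.range fun v : Fin n × σ => sg k A v.1 (a v.2)) ^ (m + 1) = ⊥ →
      ∃ W ≤ D ^ n * ((m * (n * h) + 1) * (m + 1) ^ e), InLines k (Pow k A n) W := by
  classical
  have : Infinite k := IsAlgClosed.instInfinite
  obtain ⟨O, _, _, _, _, _, T, _, h, q, hT, hJ⟩ := joint_of_fam hA (aeval a) fun j =>
    (Module.finBasis k A).coord j
  obtain ⟨η, hη⟩ := exists_retraction (k := k) (O := O)
  refine ⟨Module.finrank k⟦X⟧ O, h, fun n m hnil => ?_⟩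
  let em := Infinite.natEmbedding k
  let p : (Fin n → T) × (Fin (m * (n * h) + 1) × (Fin (Module.finrank k⟦X⟧ O) → Fin (m + 1))) →
      Fin n × σ → k := fun z => gpt em (fun v => q (z.1 v.1) v.2) (n * h) m z.2
  refine ⟨_, ?_, inLines_of_fintype (k := k) (fun v : Fin n × σ => sg k A v.1 (a v.2)) p
    (fun v => (ha v.2).map (sg k A v.1)) (adjoin_pow hgen n) fun M hM => ?_⟩
  · simp only [Fintype.card_prod, Fintype.card_fun, Fintype.card_fin]
    gcongr
  · refine aeval_eq_sum _ hnil M fun e he => ?_
    rw [← Module.forall_dual_apply_eq_zero_iff k]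
    intro φ
    obtain ⟨c, hc⟩ := hJ.pow n φ
    obtain ⟨g, hg1, hg2⟩ := hc (homogeneousComponent e M)
    rw [← hg2]
    have h1 : PowerSeries.coeff (n * h) (η (algebraMap k⟦X⟧ O
        (PowerSeries.X ^ (n * h) * g))) = PowerSeries.constantCoeff g := by
      rw [← mul_one (algebraMap k⟦X⟧ O _), ← Algebra.smul_def, map_smul, hη, smul_eq_mul,
        mul_one, PowerSeries.coeff_X_pow_mul', if_pos le_rfl, Nat.sub_self,
        PowerSeries.coeff_zero_eq_constantCoeff_apply]
    rw [← h1, ← hg1, map_sum, map_sum]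
    refine Finset.sum_eq_zero fun t _ => ?_
    obtain ⟨c', hc'⟩ := extract_all em η (c t) (fun v : Fin n × σ => q (t v.1) v.2) (n * h) m
    rw [hc' e _ he (homogeneousComponent_isHomogeneous e M)]
    refine Finset.sum_eq_zero fun w _ => ?_
    rw [show eval (gpt em (fun v : Fin n × σ => q (t v.1) v.2) (n * h) m w)
      (homogeneousComponent e M) = 0 from hM (t, w) e, mul_zero]

/-- **From lines to families.** -/
theorem fam_of_lines [IsAlgClosed k] {A : Type} [CommRing A] [Algebra k A] {W m : ℕ}
    (h : InLines k A W) (hnil : ∀ I : Ideal A, I.FG → (∀ x ∈ I, IsNilpotent x) →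
      I ^ (m + 1) = ⊥) : Fam k A (W * (m + 2)) := by
  classical
  obtain ⟨σ, hσ, a, p, ha, hgen, hM⟩ := h
  have hn : Ideal.span (Set.range a) ^ (m + 1) = ⊥ := by
    refine hnil _ ⟨(Set.finite_range a).toFinset, by rw [Set.Finite.coe_toFinset]⟩ fun x hx => ?_
    have h1 : Ideal.span (Set.range a) ≤ nilradical A := by
      rw [Ideal.span_le]
      rintro _ ⟨v, rfl⟩
      exact ha v
    exact h1 hx
  obtain ⟨N, hN1, hN1', hN2⟩ : ∃ N : ℕ, m + 1 ≤ N ∧ N ≤ m + 2 ∧ (N : k) ≠ 0 := by
    by_cases h : ((m + 1 : ℕ) : k) = 0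
    · refine ⟨m + 2, by omega, le_rfl, ?_⟩
      have : ((m + 2 : ℕ) : k) = ((m + 1 : ℕ) : k) + 1 := by push_cast; ring
      rw [this, h, zero_add]
      exact one_ne_zero
    · exact ⟨m + 1, le_rfl, by omega, h⟩
  have hNz : NeZero (N : k) := ⟨hN2⟩
  obtain ⟨ζ, hζ⟩ := HasEnoughRootsOfUnity.exists_primitiveRoot k N
  let φ : MvPolynomial σ k →ₐ[k] A := aeval a
  have hφ : Function.Surjective φ := by
    rw [← AlgHom.range_eq_top, ← Algebra.adjoin_range_eq_range_aeval]
    exact hgen
  have hS : HasSec k (MvPolynomial σ k ⧸ RingHom.ker φ) (Fin W × Fin N) := by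
    refine hasSec_of_points (RingHom.ker φ) p N ζ hζ hN2 fun F hF => ?_
    rw [RingHom.mem_ker]
    refine aeval_eq_sum a hn F fun e he => ?_
    refine hM _ fun w e' => ?_
    rw [homogeneousComponent_of_mem (homogeneousComponent_isHomogeneous e F)]
    split_ifs with h1
    · exact hF e (by omega) w
    · exact map_zero _
  obtain ⟨D, hD1, hD⟩ := hS.inSmoothable
  have h1 := hD.fam.of_surjective (Ideal.quotientKerAlgEquivOfSurjective hφ).toAlgHom
    (Ideal.quotientKerAlgEquivOfSurjective hφ).surjective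
  refine h1.mono (hD1.trans ?_)
  rw [Fintype.card_prod, Fintype.card_fin, Fintype.card_fin]
  exact Nat.mul_le_mul_left _ hN1'

end Pool.Agent.N86.SQ
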