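import Pool.Agent.N86.SQ.Semi
import Pool.Agent.N86.SQ.BaseCh

/-!
# Q1 is closed under degeneration
-/

set_option autoImplicit false
set_option linter.unusedSectionVars false

namespace Pool.Agent.N86.SQ

open scoped TensorProduct PowerSeries Topology
open Pool.Agent.H826R3.SM Pool.Agent.TH671.DU

variable {k : Type} [Field k] [IsAlgClosed k]

/-- the specialization map of a fibre -/
theorem exists_spec {𝒜 A : Type} [CommRing 𝒜] [Algebra k⟦X⟧ 𝒜] [CommRing A] [Algebra k A]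
    (hA : IsFibre 𝒜 A (PowerSeries.X : k⟦X⟧) (PowerSeries.C (R := k))) :
    ∃ π : 𝒜 →+* A, Function.Surjective π ∧
      ∀ c : k⟦X⟧, π (algebraMap k⟦X⟧ 𝒜 c) = algebraMap k A (PowerSeries.constantCoeff c) := by
  obtain ⟨e, he⟩ := hA
  refine ⟨e.toRingHom.comp (Ideal.Quotient.mk _),
    e.surjective.comp Ideal.Quotient.mk_surjective, fun c => ?_⟩
  obtain ⟨r, hr⟩ := powerSeries_split c
  change e (Ideal.Quotient.mk _ (algebraMap k⟦X⟧ 𝒜 c)) = _
  have h1 : Ideal.Quotient.mk (Ideal.span {algebraMap k⟦X⟧ 𝒜 PowerSeries.X})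
      (algebraMap k⟦X⟧ 𝒜 c) = Ideal.Quotient.mk _
        (algebraMap k⟦X⟧ 𝒜 (PowerSeries.C (PowerSeries.constantCoeff c))) := by
    rw [Ideal.Quotient.eq, Ideal.mem_span_singleton, ← map_sub]
    refine ⟨algebraMap k⟦X⟧ 𝒜 r, ?_⟩
    rw [← map_mul]
    congr 1
    conv_lhs => rw [hr]
    rw [map_add, PowerSeries.constantCoeff_C, map_mul, PowerSeries.constantCoeff_X, zero_mul,
      add_zero]
    ring
  rw [h1, he]

section

variable {𝒜 A : Type} [CommRing 𝒜] [Algebra k⟦X⟧ 𝒜] [Module.Finite k⟦X⟧ 𝒜] [Module.Flat k⟦X⟧ 𝒜]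
  [CommRing A] [Algebra k A] [IsLocalRing A]

theorem semi (hA : IsFibre 𝒜 A (PowerSeries.X : k⟦X⟧) (PowerSeries.C (R := k))) :
    ∃ (_ : Module.Finite k A) (_ : Nontrivial (LL k ⊗[k⟦X⟧] 𝒜)),
      rate k A ≤ rate (LL k) (LL k ⊗[k⟦X⟧] 𝒜) ∧
      (Module.finrank (LL k) (LL k ⊗[k⟦X⟧] 𝒜) : ℝ) ≤ Module.finrank k A := by
  have hfree : Module.Free k⟦X⟧ 𝒜 := Module.free_of_flat_of_isLocalRing
  obtain ⟨π, hπs, hπC⟩ := exists_spec hA
  have hfin : Module.Finite k A := by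
    classical
    let b := Module.finBasis k⟦X⟧ 𝒜
    refine ⟨⟨Finset.univ.image fun i => π (b i), ?_⟩⟩
    rw [eq_top_iff]
    rintro y -
    obtain ⟨x, rfl⟩ := hπs y
    rw [← b.sum_repr x, map_sum]
    refine Submodule.sum_mem _ fun i _ => ?_
    rw [Algebra.smul_def, map_mul, hπC, ← Algebra.smul_def]
    refine Submodule.smul_mem _ _ (Submodule.subset_span ?_)
    simp
  obtain ⟨hnt, hle⟩ := rate_special_le π hπs hπC
  obtain ⟨e, he⟩ := hA
  refine ⟨hfin, hnt, hle, ?_⟩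
  rw [Module.finrank_baseChange]
  exact_mod_cast finrank_family_le e he

theorem qOne_special (hA : IsFibre 𝒜 A (PowerSeries.X : k⟦X⟧) (PowerSeries.C (R := k)))
    (h : QOne (LL k) (LL k ⊗[k⟦X⟧] 𝒜)) : QOne k A := by
  obtain ⟨hfin, hnt, h1, h2⟩ := semi hA
  rw [qOne_iff_rate] at h ⊢
  rw [h] at h1
  exact le_antisymm (h1.trans h2) (finrank_le_rate A)

theorem isotrivial (hA : IsFibre 𝒜 A (PowerSeries.X : k⟦X⟧) (PowerSeries.C (R := k)))
    (B : Type) [CommRing B] [Algebra k B] [Module.Finite k B]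
    (e : LL k ⊗[k⟦X⟧] 𝒜 ≃ₐ[LL k] LL k ⊗[k] B) :
    rate k A ≤ rate k B ∧ (QOne k B → QOne k A) := by
  obtain ⟨hfin, hnt, h1, h2⟩ := semi hA
  have hntB' : Nontrivial (LL k ⊗[k] B) := e.symm.toEquiv.nontrivial
  have hntB : Nontrivial B := by
    by_contra hcon
    rw [not_nontrivial_iff_subsingleton] at hcon
    exact not_subsingleton (LL k ⊗[k] B) inferInstance
  have h3 : rate (LL k) (LL k ⊗[k⟦X⟧] 𝒜) = rate (LL k) (LL k ⊗[k] B) := TH671.DU.rate_congr e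
  have h4 := rate_baseChange_le k (LL k) B
  have h5 : rate k A ≤ rate k B := by
    rw [h3] at h1
    exact h1.trans h4
  refine ⟨h5, fun h => ?_⟩
  rw [qOne_iff_rate] at h ⊢
  have h6 : Module.finrank (LL k) (LL k ⊗[k⟦X⟧] 𝒜) = Module.finrank k B := by
    rw [e.toLinearEquiv.finrank_eq, Module.finrank_baseChange]
  rw [h6] at h2
  rw [h] at h5
  exact le_antisymm (h5.trans h2) (finrank_le_rate A)

end

end Pool.Agent.N86.SQ
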