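import Pool.Agent.N86.SQ.JointA

/-!
# Specialization of functionals
-/

set_option autoImplicit false
set_option linter.unusedSectionVars false

namespace Pool.Agent.N86.SQ

open scoped TensorProduct PowerSeries Topology
open Pool.Agent.H826R3.SM Pool.Agent.TH671.DU
open MvPolynomial

variable {k : Type} [Field k]

/-- every functional of `A₀` lifts to a functional of `A₁` over the algebraic closure of `k((X))`,
which has values in `k⟦X⟧` on the polynomials in the generators with coefficients in `k` -/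
def Spz (k : Type) [Field k] {A₀ A₁ σ : Type} [CommRing A₀] [Algebra k A₀] [CommRing A₁]
    [Algebra (LL k) A₁] (a : σ → A₀) (b : σ → A₁) : Prop :=
  ∀ φ : A₀ →ₗ[k] k, ∃ Φ : A₁ →ₗ[LL k] LL k, ∀ F : MvPolynomial σ k, ∃ g : k⟦X⟧,
    Φ (aeval b (map (iO k (LL k)) F)) = algebraMap k⟦X⟧ (LL k) g ∧
      PowerSeries.constantCoeff g = φ (aeval a F)

/-- the product of functionals -/
noncomputable def tfun {K A : Type} [Field K] [CommRing A] [Algebra K A] {n : ℕ}
    (Φ : Fin n → A →ₗ[K] K) : Pow K A n →ₗ[K] K :=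
  PiTensorProduct.lift ((MultilinearMap.mkPiAlgebra K (Fin n) K).compLinearMap Φ)

theorem tfun_tprod {K A : Type} [Field K] [CommRing A] [Algebra K A] {n : ℕ}
    (Φ : Fin n → A →ₗ[K] K) (x : Fin n → A) :
    tfun Φ (PiTensorProduct.tprod K x) = ∏ i, Φ i (x i) := by
  unfold tfun
  rw [PiTensorProduct.lift.tprod]
  simp

theorem Spz.pow {A₀ A₁ σ : Type} [CommRing A₀] [Algebra k A₀] [Module.Finite k A₀] [CommRing A₁]
    [Algebra (LL k) A₁] {a : σ → A₀} {b : σ → A₁} (H : Spz k a b) (n : ℕ) :
    Spz k (fun v : Fin n × σ => sg k A₀ v.1 (a v.2))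
      (fun v : Fin n × σ => sg (LL k) A₁ v.1 (b v.2)) := by
  classical
  let β := Module.finBasis k A₀
  choose Φ g hΦ hg using fun j => H (β.coord j)
  intro φ
  let c : (Fin n → Fin (Module.finrank k A₀)) → k := fun u =>
    φ (Basis.piTensorProduct (fun _ => β) u)
  refine ⟨∑ u, iO k (LL k) (c u) • tfun fun i => Φ (u i), fun F => ?_⟩
  have hM := mem_span_prod (k := k) (σ := σ) n F
  induction hM using Submodule.span_induction with
  | mem x hx =>
    obtain ⟨N, rfl⟩ := hx
    refine ⟨∑ u, PowerSeries.C (c u) * ∏ i, g (u i) (N i), ?_, ?_⟩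
    · have h2 : aeval (fun v : Fin n × σ => sg (LL k) A₁ v.1 (b v.2))
          (map (iO k (LL k)) (∏ i, rename (Prod.mk i) (N i))) =
          (PiTensorProduct.tprod (LL k) fun i => aeval b (map (iO k (LL k)) (N i)) :
            Pow (LL k) A₁ n) := by
        rw [map_prod, map_prod, tprod_eq_prod_single]
        refine Finset.prod_congr rfl fun i _ => ?_
        rw [map_rename, aeval_rename]
        change aeval (fun s => sg (LL k) A₁ i (b s)) (map (iO k (LL k)) (N i)) = _
        rw [← MvPolynomial.comp_aeval_apply]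
      rw [h2, LinearMap.sum_apply, map_sum]
      refine Finset.sum_congr rfl fun u _ => ?_
      rw [LinearMap.smul_apply, tfun_tprod, smul_eq_mul, map_mul, map_prod]
      congr 1
      exact Finset.prod_congr rfl fun i _ => hΦ _ _
    · have h2 : aeval (fun v : Fin n × σ => sg k A₀ v.1 (a v.2))
          (∏ i, rename (Prod.mk i) (N i)) =
          (PiTensorProduct.tprod k fun i => aeval a (N i) : Pow k A₀ n) := by
        rw [map_prod, tprod_eq_prod_single]
        refine Finset.prod_congr rfl fun i _ => ?_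
        rw [aeval_rename]
        change aeval (fun s => sg k A₀ i (a s)) (N i) = _
        rw [← MvPolynomial.comp_aeval_apply]
      rw [h2, ← (Basis.piTensorProduct (fun _ : Fin n => β)).sum_repr
        (PiTensorProduct.tprod k fun i => aeval a (N i)), map_sum, map_sum]
      refine Finset.sum_congr rfl fun u _ => ?_
      rw [map_mul, PowerSeries.constantCoeff_C, map_prod, map_smul, smul_eq_mul, mul_comm]
      congr 1
      rw [Basis.piTensorProduct_repr_tprod_apply]
      refine Finset.prod_congr rfl fun i _ => ?_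
      rw [hg]
      rfl
  | zero => exact ⟨0, by simp, by simp⟩
  | add x y _ _ hx hy =>
    obtain ⟨g1, h1, h1'⟩ := hx
    obtain ⟨g2, h2, h2'⟩ := hy
    refine ⟨g1 + g2, ?_, ?_⟩
    · rw [map_add, map_add, map_add, h1, h2, map_add]
    · rw [map_add, h1', h2', map_add, map_add]
  | smul r x _ hx =>
    obtain ⟨g1, h1, h1'⟩ := hx
    refine ⟨PowerSeries.C r * g1, ?_, ?_⟩
    · rw [smul_eq_C_mul, map_mul, map_C, map_mul, aeval_C, ← Algebra.smul_def,
        LinearMap.map_smul, smul_eq_mul, h1, map_mul]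
      rfl
    · rw [map_mul, h1', PowerSeries.constantCoeff_C, map_smul, map_smul, smul_eq_mul]

/-- coefficients of the functionals on homogeneous polynomials -/
theorem exists_coeffs {K A σ : Type} [Field K] [CommRing A] [Algebra K A] {d : σ → A} {m W : ℕ}
    {p : Fin W → σ → K} {e : ℕ} (he : e ≤ m)
    (hp : ∀ e ≤ m, ∀ M : MvPolynomial σ K, M.IsHomogeneous e →
      (∀ w, eval (p w) M = 0) → aeval d M = 0) (Φ : A →ₗ[K] K) :
    ∃ c : Fin W → K, ∀ M : MvPolynomial σ K, M.IsHomogeneous e →
      Φ (aeval d M) = ∑ w, c w * eval (p w) M := by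
  let E := homogeneousSubmodule σ K e
  let L : Fin W → E →ₗ[K] K := fun w =>
    (MvPolynomial.aeval (p w) : MvPolynomial σ K →ₐ[K] K).toLinearMap ∘ₗ E.subtype
  let Q : E →ₗ[K] K := Φ ∘ₗ (aeval d : MvPolynomial σ K →ₐ[K] A).toLinearMap ∘ₗ E.subtype
  have hL : ∀ w (M : E), L w M = eval (p w) (M : MvPolynomial σ K) := by
    intro w M
    change aeval (p w) (M : MvPolynomial σ K) = _
    rw [MvPolynomial.aeval_eq_eval]
  have h1 : Q ∈ Submodule.span K (Set.range L) := by
    refine mem_span_of_iInf_ker_le_ker fun M hM => ?_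
    have h2 : ∀ w, eval (p w) (M : MvPolynomial σ K) = 0 := by
      intro w
      have := (Submodule.mem_iInf _).1 hM w
      rw [← hL]
      exact this
    have h3 := hp e he M M.2 h2
    change Φ (aeval d (M : MvPolynomial σ K)) = 0
    rw [h3, map_zero]
  obtain ⟨c, hc⟩ := (Submodule.mem_span_range_iff_exists_fun K).1 h1
  refine ⟨c, fun M hM => ?_⟩
  have h2 := congrArg (fun f => f (⟨M, hM⟩ : E)) hc
  change (∑ w, c w • L w) (⟨M, hM⟩ : E) = Φ (aeval d M) at h2
  rw [← h2, LinearMap.sum_apply]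
  refine Finset.sum_congr rfl fun w _ => ?_
  rw [LinearMap.smul_apply, hL, smul_eq_mul]

/-- evaluation in scaled points -/
theorem eval₂_scaled {R S τ : Type} [CommRing R] [CommRing S] [Finite τ] (f : R →+* S) (y : S)
    (P : τ → S) (s : τ →₀ ℕ) (c : R) :
    eval₂ f (fun v => y * P v) (monomial s c) = y ^ s.degree * eval₂ f P (monomial s c) := by
  rw [eval₂_monomial, eval₂_monomial, Finsupp.prod, Finsupp.prod]
  simp only [mul_pow]
  rw [Finset.prod_mul_distrib, Finset.prod_pow_eq_pow_sum]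
  change _ * (y ^ s.degree * _) = _
  ring

/-- **Lines over the generic point give sections over the base.** -/
theorem joint_of_lines [IsAlgClosed k] {C₀ C₁ τ : Type} [CommRing C₀] [Algebra k C₀]
    [Module.Finite k C₀]
    [CommRing C₁] [Algebra (LL k) C₁] [Finite τ] {c : τ → C₀} {d : τ → C₁} (hS : Spz k c d)
    {m W : ℕ} (hL : LinesUpTo (LL k) d m W) (hnil : Ideal.span (Set.range c) ^ (m + 1) = ⊥)
    {N : ℕ} {ζ : k} (hζ : IsPrimitiveRoot ζ N) (hN : (N : k) ≠ 0) (hmN : m < N) :
    ∃ (O : Type) (_ : CommRing O) (_ : Algebra k⟦X⟧ O) (_ : Module.Finite k⟦X⟧ O)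
      (_ : Module.Free k⟦X⟧ O) (_ : FaithfulSMul k⟦X⟧ O) (h : ℕ) (q : Fin W × Fin N → τ → O),
      JointA k O (Fin W × Fin N) (fun j => (Module.finBasis k C₀).coord j ∘ₗ
        (aeval c : MvPolynomial τ k →ₐ[k] C₀).toLinearMap) q h := by
  classical
  have := Fintype.ofFinite τ
  let L := LL k
  obtain ⟨p, hp⟩ := hL
  choose Φ g hΦ hg using fun j => hS ((Module.finBasis k C₀).coord j)
  choose cf hcf using fun (j : Fin (Module.finrank k C₀)) (e : Fin (m + 1)) =>
    exists_coeffs (Nat.lt_succ_iff.1 e.2) hp (Φ j)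
  have halg1 : Algebra.IsAlgebraic k⟦X⟧ (LaurentSeries k) :=
    IsLocalization.isAlgebraic _ (nonZeroDivisors k⟦X⟧)
  have halg : Algebra.IsAlgebraic k⟦X⟧ L :=
    Algebra.IsAlgebraic.trans k⟦X⟧ (LaurentSeries k) L
  have hinj : Function.Injective (algebraMap k⟦X⟧ L) := by
    rw [IsScalarTower.algebraMap_eq k⟦X⟧ (LaurentSeries k) L]
    exact (algebraMap (LaurentSeries k) L).injective.comp
      (IsFractionRing.injective k⟦X⟧ (LaurentSeries k))
  obtain ⟨h0, hh⟩ := exists_X_pow_integral (k := k) (L := L)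
    (Finset.univ.image (fun z : Fin W × τ => p z.1 z.2) ∪
      Finset.univ.image fun z : Fin (Module.finrank k C₀) × Fin (m + 1) × Fin W =>
        cf z.1 z.2.1 z.2.2)
  let S0 : Set L := (Set.range fun z : Fin W × τ => (PowerSeries.X ^ h0 : k⟦X⟧) • p z.1 z.2) ∪
    (Set.range fun z : Fin (Module.finrank k C₀) × Fin (m + 1) × Fin W =>
      (PowerSeries.X ^ h0 : k⟦X⟧) • cf z.1 z.2.1 z.2.2)
  have hS0 : S0.Finite := (Set.finite_range _).union (Set.finite_range _)
  have hSint : ∀ z ∈ S0, IsIntegral k⟦X⟧ z := by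
    rintro z (⟨w, rfl⟩ | ⟨w, rfl⟩)
    · exact hh _ (Finset.mem_union_left _ (Finset.mem_image.mpr ⟨w, Finset.mem_univ _, rfl⟩))
    · exact hh _ (Finset.mem_union_right _ (Finset.mem_image.mpr ⟨w, Finset.mem_univ _, rfl⟩))
  let O := Algebra.adjoin k⟦X⟧ S0
  have hOfin : Module.Finite k⟦X⟧ O := Module.Finite.iff_fg.mpr (fg_adjoin_of_finite hS0 hSint)
  have hOinj : Function.Injective (algebraMap k⟦X⟧ O) := by
    intro x y hxy
    exact hinj (congrArg Subtype.val hxy)
  have hOf : FaithfulSMul k⟦X⟧ O := (faithfulSMul_iff_algebraMap_injective _ _).mpr hOinj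
  have hOtf : Module.IsTorsionFree k⟦X⟧ O := inferInstance
  have hOfree : Module.Free k⟦X⟧ O := Module.free_of_finite_type_torsion_free'
  let P : Fin W → τ → O := fun w v =>
    ⟨(PowerSeries.X ^ h0 : k⟦X⟧) • p w v, Algebra.subset_adjoin (Or.inl ⟨(w, v), rfl⟩)⟩
  let Cc : Fin (Module.finrank k C₀) → Fin (m + 1) → Fin W → O := fun j e w =>
    ⟨(PowerSeries.X ^ h0 : k⟦X⟧) • cf j e w, Algebra.subset_adjoin (Or.inr ⟨(j, e, w), rfl⟩)⟩
  let s1 : ℕ := h0 * (m + 1) + 1
  let h : ℕ := (s1 + h0) * m + h0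
  let xx : ℕ → O := fun n => algebraMap k⟦X⟧ O (PowerSeries.X ^ n)
  have hxx : ∀ a b, xx a * xx b = xx (a + b) := by
    intro a b
    change algebraMap k⟦X⟧ O (PowerSeries.X ^ a) * algebraMap k⟦X⟧ O (PowerSeries.X ^ b) =
      algebraMap k⟦X⟧ O (PowerSeries.X ^ (a + b))
    rw [← map_mul, pow_add]
  -- the value of the functionals in the degrees at most `m`
  have hval : ∀ (j : Fin (Module.finrank k C₀)) (e : Fin (m + 1)) (s : τ →₀ ℕ) (r : k),
      s.degree = e → ∑ w, Cc j e w * eval₂ (iO k O) (P w) (monomial s r) =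
        xx (h0 + h0 * e) * algebraMap k⟦X⟧ O (g j (monomial s r)) := by
    intro j e s r hs
    apply Subtype.ext
    rw [AddSubmonoidClass.coe_finsetSum]
    have h3 : ∀ w, ((eval₂ (iO k O) (P w) (monomial s r) : O) : L) =
        algebraMap k⟦X⟧ L (PowerSeries.X ^ h0) ^ (e : ℕ) *
          eval (p w) (map (iO k L) (monomial s r)) := by
      intro w
      have h4 := eval₂_comp_left O.val.toRingHom (iO k O) (P w) (monomial s r)
      have h5 : O.val.toRingHom.comp (iO k O) = iO k L := rfl
      rw [h5] at h4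
      refine h4.trans ?_
      have h6 : (O.val.toRingHom ∘ P w) =
          fun v => algebraMap k⟦X⟧ L (PowerSeries.X ^ h0) * p w v := by
        funext v
        change (PowerSeries.X ^ h0 : k⟦X⟧) • p w v = _
        rw [Algebra.smul_def]
      rw [h6, eval₂_scaled, hs, eval_map]
    change ∑ w, ((PowerSeries.X ^ h0 : k⟦X⟧) • cf j e w) *
      ((eval₂ (iO k O) (P w) (monomial s r) : O) : L) =
      algebraMap k⟦X⟧ L (PowerSeries.X ^ (h0 + h0 * e)) *
        algebraMap k⟦X⟧ L (g j (monomial s r))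
    rw [← hΦ, hcf j e _ ((isHomogeneous_monomial r hs).map (iO k L)), Finset.mul_sum]
    refine Finset.sum_congr rfl fun w _ => ?_
    rw [h3, Algebra.smul_def, pow_add, pow_mul, map_mul, map_pow (algebraMap k⟦X⟧ L)
      (PowerSeries.X ^ h0)]
    ring
  refine ⟨O, inferInstance, inferInstance, hOfin, hOfree, hOf, h,
    fun z v => iO k O (ζ ^ (z.2 : ℕ)) * xx s1 * P z.1 v, fun j => ?_⟩
  refine ⟨fun z => ∑ e : Fin (m + 1), iO k O ((N : k)⁻¹ * (ζ⁻¹) ^ ((z.2 : ℕ) * e)) *
    xx (h - (s1 + h0) * e - h0) * Cc j e z.1, fun F => ?_⟩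
  induction F using MvPolynomial.induction_on' with
  | monomial s r =>
    have h1 : ∑ z : Fin W × Fin N, (∑ e : Fin (m + 1), iO k O ((N : k)⁻¹ *
        (ζ⁻¹) ^ ((z.2 : ℕ) * e)) * xx (h - (s1 + h0) * e - h0) * Cc j e z.1) *
        eval₂ (iO k O) (fun v => iO k O (ζ ^ (z.2 : ℕ)) * xx s1 * P z.1 v) (monomial s r) =
        ∑ e : Fin (m + 1), iO k O (if s.degree % N = e then 1 else 0) *
          (xx (h - (s1 + h0) * e - h0) * xx (s1 * s.degree)) *
            ∑ w, Cc j e w * eval₂ (iO k O) (P w) (monomial s r) := by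
      have h2 : ∀ z : Fin W × Fin N, eval₂ (iO k O)
          (fun v => iO k O (ζ ^ (z.2 : ℕ)) * xx s1 * P z.1 v) (monomial s r) =
          iO k O (ζ ^ ((z.2 : ℕ) * s.degree)) * xx (s1 * s.degree) *
            eval₂ (iO k O) (P z.1) (monomial s r) := by
        intro z
        rw [eval₂_scaled, mul_pow, ← map_pow, ← pow_mul]
        congr 2
        change algebraMap k⟦X⟧ O (PowerSeries.X ^ s1) ^ s.degree =
          algebraMap k⟦X⟧ O (PowerSeries.X ^ (s1 * s.degree))
        rw [← map_pow, ← pow_mul]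
      simp only [h2]
      rw [Fintype.sum_prod_type]
      simp only [Finset.sum_mul]
      rw [Finset.sum_congr rfl fun w _ => Finset.sum_comm, Finset.sum_comm]
      refine Finset.sum_congr rfl fun e _ => ?_
      rw [← root_sum hζ hN s.degree ⟨e, (Nat.lt_succ_iff.1 e.2).trans_lt hmN⟩, map_mul, map_sum,
        Finset.mul_sum]
      refine Finset.sum_congr rfl fun w _ => ?_
      rw [Finset.mul_sum, Finset.sum_mul, Finset.sum_mul]
      refine Finset.sum_congr rfl fun i _ => ?_
      simp only [map_mul]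
      ring
    rw [h1]
    by_cases hd : s.degree ≤ m
    · let e0 : Fin (m + 1) := ⟨s.degree, Nat.lt_succ_iff.2 hd⟩
      rw [Finset.sum_eq_single e0]
      · rw [if_pos (Nat.mod_eq_of_lt (hd.trans_lt hmN)), map_one, one_mul, hval j e0 s r rfl]
        obtain ⟨r', hr'⟩ := powerSeries_split (g j (monomial s r))
        refine ⟨algebraMap k⟦X⟧ O r', ?_⟩
        have hexp : h - (s1 + h0) * e0 - h0 + s1 * s.degree + (h0 + h0 * e0) = h := by
          have h5 : (s1 + h0) * s.degree ≤ (s1 + h0) * m := Nat.mul_le_mul_left _ hd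
          have h6 : (s1 + h0) * s.degree = s1 * s.degree + h0 * s.degree := add_mul _ _ _
          change (s1 + h0) * m + h0 - (s1 + h0) * s.degree - h0 + s1 * s.degree +
            (h0 + h0 * s.degree) = (s1 + h0) * m + h0
          omega
        rw [← mul_assoc, hxx, hxx, hexp, hr', hg, map_add, map_mul]
        rfl
      · intro e _ he
        rw [if_neg, map_zero, zero_mul, zero_mul]
        rw [Nat.mod_eq_of_lt (hd.trans_lt hmN)]
        intro h5
        exact he (Fin.ext h5.symm)
      · intro h5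
        exact absurd (Finset.mem_univ _) h5
    · push Not at hd
      have h5 : aeval c (monomial s r) = 0 := by
        have h6 : aeval c (monomial s r) ∈ Ideal.span (Set.range c) ^ s.degree :=
          aeval_mem_pow c (isHomogeneous_monomial r rfl)
        have h7 := Ideal.pow_le_pow_right (I := Ideal.span (Set.range c))
          (show m + 1 ≤ s.degree from hd) h6
        rw [hnil] at h7
        exact h7
      refine ⟨∑ e : Fin (m + 1), iO k O (if s.degree % N = e then 1 else 0) *
        xx (h - (s1 + h0) * e - h0 + s1 * s.degree - (h + 1)) *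
          ∑ w, Cc j e w * eval₂ (iO k O) (P w) (monomial s r), ?_⟩
      have h8 : (aeval c : MvPolynomial τ k →ₐ[k] C₀).toLinearMap (monomial s r) = 0 := h5
      rw [LinearMap.comp_apply, h8, map_zero, map_zero, zero_add, ← mul_assoc, ← map_mul,
        ← pow_succ]
      change _ = xx (h + 1) * _
      rw [Finset.mul_sum]
      refine Finset.sum_congr rfl fun e _ => ?_
      have hexp : h - (s1 + h0) * e - h0 + s1 * s.degree =
          (h + 1) + (h - (s1 + h0) * e - h0 + s1 * s.degree - (h + 1)) := by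
        have he := Nat.lt_succ_iff.1 e.2
        have a1 : s1 * (e + 1) ≤ s1 * s.degree := Nat.mul_le_mul_left _ (by omega)
        have a2 : h0 * (e + 1) ≤ h0 * (m + 1) := Nat.mul_le_mul_left _ (by omega)
        have a3 : s1 * (e + 1) = s1 * e + s1 := by ring
        have a4 : h0 * ((e : ℕ) + 1) = h0 * e + h0 := by ring
        have a5 : (s1 + h0) * (e : ℕ) = s1 * e + h0 * e := add_mul _ _ _
        have a6 : (s1 + h0) * (e : ℕ) ≤ (s1 + h0) * m := Nat.mul_le_mul_left _ he
        have a7 : s1 = h0 * (m + 1) + 1 := rfl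
        have a8 : h = (s1 + h0) * m + h0 := rfl
        omega
      rw [hxx]
      conv_lhs => rw [hexp]
      rw [← hxx]
      ring
  | add x y hx hy =>
    obtain ⟨r1, h1⟩ := hx
    obtain ⟨r2, h2⟩ := hy
    refine ⟨r1 + r2, ?_⟩
    simp only [eval₂_add, mul_add, Finset.sum_add_distrib, map_add]
    rw [h1, h2]
    ring

end Pool.Agent.N86.SQ
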