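import Pool.Agent.TH671.DU.Dich

/-!
# Smoothability defects and subalgebras

If `A'` is a subalgebra of `A` then every family of degree `D` whose special fibre contains `Spec A`
gives a family of degree `D` whose special fibre contains `Spec A'`.
-/

set_option autoImplicit false

namespace Pool.Agent.N86.SQ

open scoped TensorProduct PowerSeries
open Pool.Agent.H826R3.SM Pool.Agent.TH671.DU

variable {k : Type} [Field k]

/-- **Subalgebras.** -/
theorem fam_sub {A B : Type} [CommRing A] [Algebra k A] [CommRing B] [Algebra k B] {D : ℕ}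
    (h : Fam k B D) (f : A →ₐ[k] B) (hf : Function.Injective f) : Fam k A D := by
  obtain ⟨𝒜, cA, aA, hfin, hfree, hred, hrk, π, hπs, hπC⟩ := h
  let S : Subalgebra k⟦X⟧ 𝒜 :=
    { carrier := {x | π x ∈ f.range}
      mul_mem' := fun {x y} hx hy => by
        change π (x * y) ∈ f.range
        rw [map_mul]
        exact mul_mem hx hy
      add_mem' := fun {x y} hx hy => by
        change π (x + y) ∈ f.range
        rw [map_add]
        exact add_mem hx hy
      algebraMap_mem' := fun c => by
        change π (algebraMap k⟦X⟧ 𝒜 c) ∈ f.range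
        rw [hπC]
        exact Subalgebra.algebraMap_mem _ _ }
  have hnoeth : IsNoetherian k⟦X⟧ 𝒜 := inferInstance
  have hSfin : Module.Finite k⟦X⟧ S :=
    Module.Finite.of_injective S.val.toLinearMap Subtype.val_injective
  have hAtf : Module.IsTorsionFree k⟦X⟧ 𝒜 := inferInstance
  have hStf : Module.IsTorsionFree k⟦X⟧ S :=
    Function.Injective.moduleIsTorsionFree (f := S.val.toLinearMap) Subtype.val_injective
      (fun r x => by simp)
  have hSfree : Module.Free k⟦X⟧ S := Module.free_of_finite_type_torsion_free'
  have hfl : Module.Flat k⟦X⟧ (LL k) := Module.Flat.trans k⟦X⟧ (LaurentSeries k) (LL k)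
  let g : (LL k ⊗[k⟦X⟧] S) →ₐ[LL k] (LL k ⊗[k⟦X⟧] 𝒜) :=
    Algebra.TensorProduct.map (AlgHom.id _ _) S.val
  have hg : Function.Injective g :=
    Module.Flat.lTensor_preserves_injective_linearMap S.val.toLinearMap Subtype.val_injective
  have hSred : IsReduced (LL k ⊗[k⟦X⟧] S) := isReduced_of_injective g hg
  have hSrk : Module.finrank k⟦X⟧ S ≤ D :=
    (LinearMap.finrank_le_finrank_of_injective (f := S.val.toLinearMap)
      Subtype.val_injective).trans hrk
  let e : A ≃ₐ[k] f.range := AlgEquiv.ofInjective f hf
  let ρ0 : S →+* f.range := (π.comp S.val.toRingHom).codRestrict f.range fun x => x.2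
  refine ⟨S, inferInstance, inferInstance, hSfin, hSfree, hSred, hSrk,
    e.symm.toRingEquiv.toRingHom.comp ρ0, ?_, ?_⟩
  · intro a
    obtain ⟨x, hx⟩ := hπs (f a)
    refine ⟨⟨x, ⟨a, hx.symm⟩⟩, ?_⟩
    have h1 : ρ0 ⟨x, ⟨a, hx.symm⟩⟩ = e a := Subtype.ext hx
    change e.symm (ρ0 _) = a
    rw [h1, AlgEquiv.symm_apply_apply]
  · intro c
    have h1 : ρ0 (algebraMap k⟦X⟧ S c) = algebraMap k f.range (PowerSeries.constantCoeff c) :=
      Subtype.ext (hπC c)
    change e.symm (ρ0 _) = _
    rw [h1, AlgEquiv.commutes]

theorem mdeg_sub {A B : Type} [CommRing A] [Algebra k A] [CommRing B] [Algebra k B] {D : ℕ}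
    (h : Fam k B D) (f : A →ₐ[k] B) (hf : Function.Injective f) : mdeg k A ≤ mdeg k B :=
  mdeg_le (fam_sub (mdeg_spec h) f hf)

/-- the power of an injective algebra map -/
theorem powLift_injective {A B : Type} [CommRing A] [Algebra k A] [CommRing B] [Algebra k B]
    (f : A →ₐ[k] B) (hf : Function.Injective f) (n : ℕ) :
    Function.Injective (powLift fun i : Fin n => (sg k B i).comp f) := by
  classical
  obtain ⟨r, hr⟩ := f.toLinearMap.exists_leftInverse_of_injective
    (LinearMap.ker_eq_bot.2 hf)
  have h1 : (powLift fun i : Fin n => (sg k B i).comp f).toLinearMap =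
      PiTensorProduct.map fun _ : Fin n => f.toLinearMap := by
    refine PiTensorProduct.ext ?_
    refine MultilinearMap.ext fun x => ?_
    change (powLift fun i : Fin n => (sg k B i).comp f) (PiTensorProduct.tprod k x) =
      PiTensorProduct.map (fun _ : Fin n => f.toLinearMap) (PiTensorProduct.tprod k x)
    rw [PiTensorProduct.map_tprod, tprod_eq_prod_single, map_prod]
    rw [tprod_eq_prod_single (k := k) (A := B)]
    refine Finset.prod_congr rfl fun i _ => ?_
    rw [powLift_single]
    rfl
  have h2 : (PiTensorProduct.map fun _ : Fin n => r) ∘ₗ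
      (PiTensorProduct.map fun _ : Fin n => f.toLinearMap) = LinearMap.id := by
    rw [← PiTensorProduct.map_comp]
    simp only [hr]
    exact PiTensorProduct.map_id
  have h3 : Function.Injective (powLift fun i : Fin n => (sg k B i).comp f).toLinearMap := by
    rw [h1]
    intro x y hxy
    have := congrArg (PiTensorProduct.map fun _ : Fin n => r) hxy
    rw [← LinearMap.comp_apply, ← LinearMap.comp_apply, h2] at this
    exact this
  exact h3

end Pool.Agent.N86.SQ
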